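import Pool.Agent.H656R2.AK.TQPoly

/-!
# Strategies of the universal player
-/

namespace Pool.Agent.Q227.WD

open Pool.Agent.H623R2.PS Pool.Agent.H656R2.AK

/-- A false quantified formula has a strategy for the universal player: `sk x` is the assignment
which arises when the existential player plays `x`. -/
theorem exists_sk : ∀ (qs : List Bool) (φ : List Bool → Bool), evq qs φ = false →
    ∃ sk : (ℕ → Bool) → ℕ → Bool, (∀ x i, qs.getD i true = false → sk x i = x i) ∧
      (∀ x x' i, (∀ j < i, x j = x' j) → qs.getD i false = true → sk x i = sk x' i) ∧
      ∀ x, φ ((List.range qs.length).map (sk x)) = false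
  | [], φ, h => ⟨fun x => x, by simp, by simp, fun x => by simpa [evq] using h⟩
  | true :: qs, φ, h => by
    have h' : evq qs (fun u => φ (false :: u)) = false ∨ evq qs (fun u => φ (true :: u)) = false := by
      simp only [evq, cond_true] at h
      revert h
      cases evq qs (fun u => φ (false :: u)) <;> cases evq qs (fun u => φ (true :: u)) <;> simp
    obtain ⟨c, hc⟩ : ∃ c, evq qs (fun u => φ (c :: u)) = false := by
      rcases h' with h' | h'
      · exact ⟨_, h'⟩
      · exact ⟨_, h'⟩
    obtain ⟨sk, h1, h2, h3⟩ := exists_sk qs _ hc
    refine ⟨fun x i => Nat.casesOn i c fun i => sk (fun j => x (j + 1)) i, ?_, ?_, ?_⟩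
    · intro x i hi
      cases i with
      | zero => simp at hi
      | succ i => exact h1 _ i (by simpa using hi)
    · intro x x' i hx hi
      cases i with
      | zero => rfl
      | succ i => exact h2 _ _ i (fun j hj => hx (j + 1) (by omega)) (by simpa using hi)
    · intro x
      rw [List.length_cons, List.range_succ_eq_map, List.map_cons, List.map_map]
      exact h3 _
  | false :: qs, φ, h => by
    have h' : evq qs (fun u => φ (false :: u)) = false ∧ evq qs (fun u => φ (true :: u)) = false := by
      simpa [evq, Bool.or_eq_false_iff] using h
    have hc : ∀ c, evq qs (fun u => φ (c :: u)) = false := by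
      intro c
      cases c
      · exact h'.1
      · exact h'.2
    choose sk h1 h2 h3 using fun c => exists_sk qs _ (hc c)
    refine ⟨fun x i => Nat.casesOn i (x 0) fun i => sk (x 0) (fun j => x (j + 1)) i, ?_, ?_, ?_⟩
    · intro x i hi
      cases i with
      | zero => rfl
      | succ i => exact h1 _ _ i (by simpa using hi)
    · intro x x' i hx hi
      cases i with
      | zero => simp at hi
      | succ i =>
        change sk (x 0) _ i = sk (x' 0) _ i
        rw [hx 0 (by omega)]
        exact h2 _ _ _ i (fun j hj => hx (j + 1) (by omega)) (by simpa using hi)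
    · intro x
      rw [List.length_cons, List.range_succ_eq_map, List.map_cons, List.map_map]
      exact h3 _ _

end Pool.Agent.Q227.WD
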