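import Pool.Agent.Q227.WD.Cli

/-!
# Client's strategy: the step in a broken position
-/

namespace Pool.Agent.Q227.WD

variable {ex un : ℕ → Prop} {E : Set Pt → Prop} {D S : Set Pt} {c z s : Pt}

theorem L_fst (i : ℕ) (b : Bool) : (L i b).1 = i := rfl

theorem gv_fst (i : ℕ) (b : Bool) : (gv i b).1 = i := rfl

theorem L_lt (i : ℕ) (b : Bool) : (L i b).2 < 5 := by cases b <;> simp [L]

theorem L_ge (i : ℕ) (b : Bool) : 3 ≤ (L i b).2 := by cases b <;> simp [L]

theorem gv_lt (i : ℕ) (b : Bool) : (gv i b).2 < 3 := by cases b <;> simp [gv]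

theorem gv_pos (i : ℕ) (b : Bool) : 0 < (gv i b).2 := by cases b <;> simp [gv]

theorem ch_notD (hdis : ∀ p ∈ D, p ∉ S) {t : ℕ} (hF : Fine ex D S t) : ∀ p ∈ ch ex t, p ∉ D := by
  rintro ⟨i, l⟩ ⟨h1, h2, h3⟩ h4
  simp only at h1 h2 h3
  subst h3
  rcases hF i h2 h1 with h5 | h5
  · exact hdis _ h4 h5
  · exact (h5 0 (by norm_num)).1 h4

theorem good_total (a b : ℕ) (ha : a < 5) (hb : b < 5) (h : a ≠ b) :
    (a = 0 ∧ (b = 3 ∨ b = 4)) ∨ (b = 0 ∧ (a = 3 ∨ a = 4)) ∨ good a b ∨ good b a := by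
  unfold good
  omega

theorem conf_low {t : ℕ} (h : Conf ex E D S t) (h1 : z ∉ ch ex t) (h2 : z ∉ S) (hc : Low ex t c)
    (hz : Low ex t z) : Conf ex E (insert z D) (insert c S) t := by
  have nc : ∀ p, ¬ Low ex t p → p ≠ c := by
    rintro p h rfl
    exact h hc
  have nz : ∀ p, ¬ Low ex t p → p ≠ z := by
    rintro p h rfl
    exact h hz
  cases h with
  | c0 h => exact .c0 (h.up (fun p hp => Or.inr hp) h1 h2 (by simp))
  | c1 w hw lw sw h =>
    refine .c1 w (hw.up (nz w lw) (nc w lw)) lw sw (h.up (fun p hp => Or.inr hp) h1 h2 ?_)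
    rintro rfl
    exact lw hz
  | c2 u v w hu hv hw lu lv lw su sv sw huv huw hvw e1 e2 =>
    refine .c2 u v w (hu.up (nz u lu) (nc u lu)) (hv.up (nz v lv) (nc v lv))
      (hw.up (nz w lw) (nc w lw)) lu lv lw su sv sw huv huw hvw
      (e1.up (fun p hp => Or.inr hp) h1 h2 ?_) (e2.up (fun p hp => Or.inr hp) h1 h2 ?_)
    · rintro (rfl | rfl)
      exacts [lu hz, lv hz]
    · rintro (rfl | rfl)
      exacts [lu hz, lw hz]
  | ch ht hU g hg lg hgt sg e =>
    refine .ch ht (hU.up ?_ ?_) g (hg.up (nz g lg) (nc g lg)) lg hgt sg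
      fun b => (e b).up (fun p hp => Or.inr hp) h1 h2 ?_
    · intro h
      exact absurd hz.2 (by omega)
    · intro h
      exact absurd hc.2 (by omega)
    · rintro (rfl | rfl | rfl)
      · exact absurd hz.2 (by simp [L])
      · exact absurd hz.2 (by simp)
      · exact lg hz

/-- active vertices of lower levels -/
def LA (ex : ℕ → Prop) (D S : Set Pt) (t : ℕ) (p : Pt) : Prop :=
  ex p.1 ∧ p.1 < t ∧ p.2 < 5 ∧ Unt D S p.1

theorem low_step (H : HypE ex un E) (hdis : ∀ p ∈ D, p ∉ S) {t : ℕ} (hF : Fine ex D S t)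
    (hC : Conf ex E D S t) (hc : Fr D S c) (hz : Fr D S z) (hne : c ≠ z) (hlc : LA ex D S t c)
    (hlz : ¬ (LA ex D S t z ∧ z.1 < c.1)) :
    Broken ex E (insert z D) (insert c S) ∨ Broken ex E (insert c D) (insert z S) := by
  obtain ⟨k, cc⟩ := c
  obtain ⟨i, zz⟩ := z
  obtain ⟨hk, hkt, hcc, hU⟩ := hlc
  simp only at hk hkt hcc hU hlz
  have hFk : Fine ex D S k := fun k' h => hF k' (by omega)
  have hlow : ∀ k' < k, ex k' → Unt D S k' → i = k' → 5 ≤ zz := by
    rintro k' hk' he hu rfl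
    by_contra h
    exact hlz ⟨⟨he, by simp only; omega, by simp only; omega, hu⟩, hk'⟩
  by_cases hzk : i = k ∧ zz < 5
  · obtain ⟨rfl, hzz⟩ := hzk
    have hne' : cc ≠ zz := fun h => hne (by rw [h])
    have hU' : ∀ {k' : ℕ}, k' < i → ex k' → Unt D S k' → i = k' → 5 ≤ zz := fun h _ _ h' => by omega
    rcases good_total cc zz hcc hzz hne' with ⟨rfl, h⟩ | ⟨rfl, h⟩ | h | h
    · left
      refine ⟨t, hF.up ?_, conf_low hC ?_ hz.2 ⟨hk, hkt⟩ ⟨hk, hkt⟩⟩
      · intro k' hk' he hu
        by_cases e : k' = i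
        · subst e
          exact Or.inr rfl
        · exact Or.inl ⟨fun h => absurd h (Ne.symm e), fun h => absurd h (Ne.symm e)⟩
      · rintro ⟨_, _, h3⟩
        simp only at h3
        omega
    · right
      refine ⟨t, hF.up ?_, conf_low hC ?_ hc.2 ⟨hk, hkt⟩ ⟨hk, hkt⟩⟩
      · intro k' hk' he hu
        by_cases e : k' = i
        · subst e
          exact Or.inr rfl
        · exact Or.inl ⟨fun h => absurd h (Ne.symm e), fun h => absurd h (Ne.symm e)⟩
      · rintro ⟨_, _, h3⟩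
        simp only at h3
        omega
    · exact Or.inl (imp H hdis hk hFk hU hcc hz hlow fun _ => Or.inr h)
    · refine Or.inr (imp H hdis hk hFk hU hzz hc ?_ fun _ => Or.inr h)
      intro k' hk' _ _ h
      simp only at h
      omega
  · refine Or.inl (imp H hdis hk hFk hU hcc hz hlow ?_)
    intro h
    simp only at h
    left
    simp only
    omega

theorem broken_step (H : HypE ex un E) (hdis : ∀ p ∈ D, p ∉ S) (hB : Broken ex E D S)
    (hs : Fr D S s) (hz : Fr D S z) (hne : s ≠ z) :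
    Broken ex E (insert z D) (insert s S) ∨ Broken ex E (insert s D) (insert z S) := by
  obtain ⟨t, hF, hC⟩ := hB
  by_cases h1 : LA ex D S t s
  · by_cases h2 : LA ex D S t z ∧ z.1 < s.1
    · exact (low_step H hdis hF hC hz hs hne.symm h2.1 (fun h => by omega)).symm
    · exact low_step H hdis hF hC hs hz hne h1 h2
  by_cases h2 : LA ex D S t z
  · exact (low_step H hdis hF hC hz hs hne.symm h2 (fun h => h1 h.1)).symm
  -- facts for both orientations
  have nch : ∀ z, Fr D S z → ¬ LA ex D S t z → z ∉ ch ex t := by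
    rintro ⟨i, l⟩ hz hl ⟨g1, g2, g3⟩
    simp only at g1 g2 g3
    subst g3
    rcases hF i g2 g1 with g | g
    · exact hz.2 g
    · exact hl ⟨g1, g2, by norm_num, g⟩
  have nlow : ∀ z, ¬ LA ex D S t z → ∀ k < t, ex k → Unt D S k → z.1 = k → 5 ≤ z.2 := by
    rintro z hl k hk he hu rfl
    by_contra h
    exact hl ⟨he, hk, by omega, hu⟩
  have hFu : ∀ c z, ¬ LA ex D S t c → ¬ LA ex D S t z → Fine ex (insert z D) (insert c S) t :=
    fun c z hc hz => hF.up fun k hk he hu => Or.inl ⟨nlow z hz k hk he hu, nlow c hc k hk he hu⟩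
  cases hC with
  | c0 h => exact Or.inl ⟨t, hFu s z h1 h2, .c0 (h.up (fun p hp => Or.inr hp) (nch z hz h2) hz.2 (by simp))⟩
  | c1 w hw lw sw h =>
    have key : ∀ c z, Fr D S c → Fr D S z → ¬ LA ex D S t c → ¬ LA ex D S t z → c ≠ z → z ≠ w →
        Broken ex E (insert z D) (insert c S) := by
      intro c z fc fz lc lz hcz hzw
      refine ⟨t, hFu c z lc lz, ?_⟩
      have hz' : z ∉ ({w} : Set Pt) := hzw
      by_cases e : c = w
      · subst e
        exact .c0 (h.up (fun p hp => Or.inl hp) (nch z fz lz) fz.2 hz')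
      · exact .c1 w (hw.up hzw.symm (Ne.symm e)) lw sw
          (h.up (fun p hp => Or.inr hp) (nch z fz lz) fz.2 hz')
    by_cases e : z = w
    · exact Or.inr (key z s hz hs h2 h1 hne.symm fun h => hne (h.trans e.symm))
    · exact Or.inl (key s z hs hz h1 h2 hne e)
  | c2 u v w hu hv hw lu lv lw su sv sw huv huw hvw e1 e2 =>
    have key : ∀ c z, Fr D S c → Fr D S z → ¬ LA ex D S t c → ¬ LA ex D S t z → c ≠ z →
        (c = u ∨ ((c = v ∨ c = w) ∧ z ≠ u) ∨ (c ≠ u ∧ c ≠ v ∧ c ≠ w ∧ z ≠ u ∧ z ≠ v ∧ z ≠ w)) →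
        Broken ex E (insert z D) (insert c S) := by
      intro c z fc fz lc lz hcz hcond
      refine ⟨t, hFu c z lc lz, ?_⟩
      have hcz' := nch z fz lz
      rcases hcond with rfl | ⟨rfl | rfl, hzu⟩ | ⟨n1, n2, n3, n4, n5, n6⟩
      · by_cases e : z = v
        · subst e
          refine .c1 w (hw.up hvw.symm huw.symm) lw sw (e2.up (fun p hp => hp) hcz' fz.2 ?_)
          rintro (h | h)
          exacts [hcz h.symm, hvw h]
        · refine .c1 v (hv.up (Ne.symm e) huv.symm) lv sv (e1.up (fun p hp => hp) hcz' fz.2 ?_)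
          rintro (h | h)
          exacts [hcz h.symm, e h]
      · refine .c1 u (hu.up hzu.symm huv) lu su (e1.up (fun p hp => Or.symm hp) hcz' fz.2 ?_)
        rintro (h | h)
        exacts [hzu h, hcz h.symm]
      · refine .c1 u (hu.up hzu.symm huw) lu su (e2.up (fun p hp => Or.symm hp) hcz' fz.2 ?_)
        rintro (h | h)
        exacts [hzu h, hcz h.symm]
      · refine .c2 u v w (hu.up n4.symm n1.symm) (hv.up n5.symm n2.symm) (hw.up n6.symm n3.symm)
          lu lv lw su sv sw huv huw hvw (e1.up (fun p hp => Or.inr hp) hcz' fz.2 ?_)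
          (e2.up (fun p hp => Or.inr hp) hcz' fz.2 ?_)
        · rintro (h | h)
          exacts [n4 h, n5 h]
        · rintro (h | h)
          exacts [n4 h, n6 h]
    by_cases a1 : s = u
    · exact Or.inl (key s z hs hz h1 h2 hne (Or.inl a1))
    by_cases a2 : z = u
    · exact Or.inr (key z s hz hs h2 h1 hne.symm (Or.inl a2))
    by_cases a3 : s = v ∨ s = w
    · exact Or.inl (key s z hs hz h1 h2 hne (Or.inr (Or.inl ⟨a3, a2⟩)))
    by_cases a4 : z = v ∨ z = w
    · exact Or.inr (key z s hz hs h2 h1 hne.symm (Or.inr (Or.inl ⟨a4, a1⟩)))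
    push Not at a3 a4
    exact Or.inl (key s z hs hz h1 h2 hne (Or.inr (Or.inr ⟨a1, a3.1, a3.2, a2, a4.1, a4.2⟩)))
  | ch ht hU g hg lg hgt sg e =>
    have keyA : ∀ c z, Fr D S c → Fr D S z → ¬ LA ex D S t c → ¬ LA ex D S t z → c ≠ z →
        c.1 = t → c.2 < 5 → (z.1 = t → 5 ≤ z.2 ∨ good c.2 z.2) →
        Broken ex E (insert z D) (insert c S) := by
      rintro ⟨k, cc⟩ z fc fz lc lz hcz rfl hcc hg
      exact imp H hdis ht hF hU hcc fz (nlow z lz) hg
    have keyB : ∀ b, Broken ex E (insert (t, 0) D) (insert (L t b) S) := by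
      intro b
      have f0 : Fr D S (t, 0) := hU 0 (by norm_num)
      have fL : Fr D S (L t b) := hU _ (L_lt t b)
      have l0 : ¬ LA ex D S t (t, 0) := fun h => lt_irrefl _ h.2.1
      have lL : ¬ LA ex D S t (L t b) := fun h => lt_irrefl _ h.2.1
      refine ⟨t, hFu _ _ lL l0, ?_⟩
      have n1 : (t, 1) ≠ ((t, 0) : Pt) := by simp
      have n2 : (t, 2) ≠ ((t, 0) : Pt) := by simp
      have n3 : (t, 1) ≠ L t b := by cases b <;> simp [L]
      have n4 : (t, 2) ≠ L t b := by cases b <;> simp [L]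
      have n5 : (t, 0) ≠ L t b := by cases b <;> simp [L]
      have ng0 : g ≠ (t, 0) := fun h => hgt (by rw [h])
      have ngL : g ≠ L t b := fun h => hgt (by rw [h, L_fst])
      have ng1 : (t, 1) ≠ g := fun h => hgt (by rw [← h])
      have ng2 : (t, 2) ≠ g := fun h => hgt (by rw [← h])
      have hlo : ∀ i, ¬ Low ex t (t, i) := fun i h => lt_irrefl _ h.2
      have base : AE ex E D S t {L t b, (t, 1), (t, 2)} := by
        refine ⟨_, H.e2 t ht b, ?_, ?_⟩
        · rintro p (hp | hp)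
          · exact ch_notD hdis hF p hp
          · rcases hp with rfl | rfl | rfl
            exacts [fL.1, (hU 1 (by norm_num)).1, (hU 2 (by norm_num)).1]
        · rintro p (hp | hp)
          · exact Or.inl hp
          · exact Or.inr (Or.inr hp)
      refine .c2 (t, 1) (t, 2) g ((hU 1 (by norm_num)).up n1 n3) ((hU 2 (by norm_num)).up n2 n4)
        (hg.up ng0 ngL) (hlo 1) (hlo 2) lg (by norm_num) (by norm_num) sg (by simp) ng1 ng2
        (base.up (fun p hp => hp) (nch _ f0 l0) f0.2 ?_)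
        ((e b).up (fun p hp => hp) (nch _ f0 l0) f0.2 ?_)
      · rintro (h | h | h)
        exacts [n5 h, n1 h.symm, n2 h.symm]
      · rintro (h | h | h)
        exacts [n5 h, n1 h.symm, ng0 h.symm]
    have keyC : ∀ z, Fr D S z → ¬ LA ex D S t g → ¬ LA ex D S t z → g ≠ z → (z.1 = t → 5 ≤ z.2) →
        Broken ex E (insert z D) (insert g S) := by
      intro z fz lgg lz hgz hzt
      refine ⟨t, hFu g z lgg lz, ?_⟩
      have nz : ∀ i < 5, (t, i) ≠ z := by
        rintro i hi rfl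
        exact absurd (hzt rfl) (by simpa using hi)
      have ng : ∀ i, (t, i) ≠ g := fun i h => hgt (by rw [← h])
      have hlo : ∀ i, ¬ Low ex t (t, i) := fun i h => lt_irrefl _ h.2
      have hnf : ∀ b, z ∉ ({L t b, (t, 1), g} : Set Pt) := by
        rintro b (h | h | h)
        · exact nz _ (L_lt t b) h.symm
        · exact nz 1 (by norm_num) h.symm
        · exact hgz h.symm
      refine .c2 (t, 1) (t, 3) (t, 4) ((hU 1 (by norm_num)).up (nz 1 (by norm_num)) (ng 1))
        ((hU 3 (by norm_num)).up (nz 3 (by norm_num)) (ng 3))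
        ((hU 4 (by norm_num)).up (nz 4 (by norm_num)) (ng 4)) (hlo 1) (hlo 3) (hlo 4)
        (by norm_num) (by norm_num) (by norm_num) (by simp) (by simp) (by simp)
        ((e false).up ?_ (nch z fz lz) fz.2 (hnf false))
        ((e true).up ?_ (nch z fz lz) fz.2 (hnf true))
      · rintro p (rfl | rfl | rfl) <;> simp [L]
      · rintro p (rfl | rfl | rfl) <;> simp [L]
    by_cases a1 : s.1 = t ∧ s.2 < 5
    · by_cases a2 : z.1 = t ∧ z.2 < 5
      · have hne' : s.2 ≠ z.2 := fun h => hne (Prod.ext (a1.1.trans a2.1.symm) h)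
        rcases good_total s.2 z.2 a1.2 a2.2 hne' with ⟨g1, g2⟩ | ⟨g1, g2⟩ | g1 | g1
        · right
          obtain ⟨s1, s2⟩ := s
          obtain ⟨z1, z2⟩ := z
          simp only at a1 a2 g1 g2
          obtain ⟨rfl, _⟩ := a1
          obtain ⟨rfl, _⟩ := a2
          subst g1
          rcases g2 with rfl | rfl
          · exact keyB false
          · exact keyB true
        · left
          obtain ⟨s1, s2⟩ := s
          obtain ⟨z1, z2⟩ := z
          simp only at a1 a2 g1 g2
          obtain ⟨rfl, _⟩ := a1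
          obtain ⟨rfl, _⟩ := a2
          subst g1
          rcases g2 with rfl | rfl
          · exact keyB false
          · exact keyB true
        · exact Or.inl (keyA s z hs hz h1 h2 hne a1.1 a1.2 fun _ => Or.inr g1)
        · exact Or.inr (keyA z s hz hs h2 h1 hne.symm a2.1 a2.2 fun _ => Or.inr g1)
      · exact Or.inl (keyA s z hs hz h1 h2 hne a1.1 a1.2 fun h => Or.inl (by omega))
    by_cases a2 : z.1 = t ∧ z.2 < 5
    · exact Or.inr (keyA z s hz hs h2 h1 hne.symm a2.1 a2.2 fun h => Or.inl (by omega))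
    by_cases a3 : s = g
    · subst a3
      exact Or.inl (keyC z hz h1 h2 hne fun h => by omega)
    by_cases a4 : z = g
    · subst a4
      exact Or.inr (keyC s hs h2 h1 hne.symm fun h => by omega)
    left
    refine ⟨t, hFu s z h1 h2, .ch ht (hU.up (fun h => by omega) (fun h => by omega)) g
      (hg.up (Ne.symm a4) (Ne.symm a3)) lg hgt sg fun b =>
        (e b).up (fun p hp => Or.inr hp) (nch z hz h2) hz.2 ?_⟩
    rintro (h | h | h)
    · exact a2 (by rw [h]; exact ⟨rfl, L_lt t b⟩)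
    · exact a2 (by rw [h]; exact ⟨rfl, by norm_num⟩)
    · exact a4 h

theorem broken_dummy (hB : Broken ex E D S) (hz : Fr D S z) (h1 : 5 ≤ c.2) (h2 : 5 ≤ z.2) :
    Broken ex E (insert z D) (insert c S) := by
  obtain ⟨t, hF, hC⟩ := hB
  refine ⟨t, hF.up fun k _ _ _ => Or.inl ⟨fun _ => h2, fun _ => h1⟩, ?_⟩
  have hch : z ∉ ch ex t := by
    rintro ⟨_, _, h⟩
    omega
  have nc : ∀ p : Pt, p.2 < 5 → p ≠ c := by
    rintro p h rfl
    omega
  have nz : ∀ p : Pt, p.2 < 5 → p ≠ z := by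
    rintro p h rfl
    omega
  cases hC with
  | c0 h => exact .c0 (h.up (fun p hp => Or.inr hp) hch hz.2 (by simp))
  | c1 w hw lw sw h =>
    exact .c1 w (hw.up (nz w sw) (nc w sw)) lw sw (h.up (fun p hp => Or.inr hp) hch hz.2
      (nz w sw).symm)
  | c2 u v w hu hv hw lu lv lw su sv sw huv huw hvw e1 e2 =>
    refine .c2 u v w (hu.up (nz u su) (nc u su)) (hv.up (nz v sv) (nc v sv))
      (hw.up (nz w sw) (nc w sw)) lu lv lw su sv sw huv huw hvw
      (e1.up (fun p hp => Or.inr hp) hch hz.2 ?_) (e2.up (fun p hp => Or.inr hp) hch hz.2 ?_)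
    · rintro (h | h)
      exacts [nz u su h.symm, nz v sv h.symm]
    · rintro (h | h)
      exacts [nz u su h.symm, nz w sw h.symm]
  | ch ht hU g hg lg hgt sg e =>
    refine .ch ht (hU.up (fun _ => h2) (fun _ => h1)) g (hg.up (nz g sg) (nc g sg)) lg hgt sg
      fun b => (e b).up (fun p hp => Or.inr hp) hch hz.2 ?_
    rintro (h | h | h)
    exacts [nz _ (L_lt t b) h.symm, nz (t, 1) (by norm_num) h.symm, nz g sg h.symm]

theorem broken_alive (hB : Broken ex E D S) : ∃ X, E X ∧ ∀ p ∈ X, p ∉ D := by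
  obtain ⟨t, _, hC⟩ := hB
  cases hC with
  | c0 h => exact ⟨_, h.choose_spec.1, h.choose_spec.2.1⟩
  | c1 w hw lw sw h => exact ⟨_, h.choose_spec.1, h.choose_spec.2.1⟩
  | c2 u v w hu hv hw lu lv lw su sv sw huv huw hvw h e2 =>
    exact ⟨_, h.choose_spec.1, h.choose_spec.2.1⟩
  | ch ht hU g hg lg hgt sg e => exact ⟨_, (e false).choose_spec.1, (e false).choose_spec.2.1⟩

end Pool.Agent.Q227.WD
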