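import Mathlib

/-!
# Client's strategy: broken positions
-/

namespace Pool.Agent.Q227.WD

/-- the vertices of the hypergraph and dummies -/
abbrev Pt := ℕ × ℕ

/-- literal vertices -/
def L (i : ℕ) (b : Bool) : Pt := (i, 3 + b.toNat)

/-- the partners of the literal vertices -/
def gv (i : ℕ) (b : Bool) : Pt := (i, 1 + b.toNat)

/-- the chain -/
def ch (ex : ℕ → Prop) (t : ℕ) : Set Pt := {p | ex p.1 ∧ p.1 < t ∧ p.2 = 0}

/-- the edges we need -/
structure HypE (ex un : ℕ → Prop) (E : Set Pt → Prop) : Prop where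
  disj : ∀ i, ex i → ¬ un i
  e1 : ∀ j, ex j → E (ch ex j ∪ {(j, 0), (j, 3), (j, 4)})
  e1q : ∀ j, ex j → ∀ b, E (ch ex j ∪ {(j, 0), L j b, (j, 1)})
  e2 : ∀ j, ex j → ∀ b, E (ch ex j ∪ {L j b, (j, 1), (j, 2)})
  e3 : ∀ j i, ex j → un i → j < i → ∀ b b', E (ch ex j ∪ {L j b, (j, 1), L i b', gv i b'})
  e4 : ∀ i, un i → E (ch ex i ∪ {L i false, L i true})

/-- unclaimed -/
def Fr (D S : Set Pt) (p : Pt) : Prop := p ∉ D ∧ p ∉ S

/-- untouched -/
def Unt (D S : Set Pt) (j : ℕ) : Prop := ∀ k < 5, Fr D S (j, k)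

/-- the levels below `t` are fine -/
def Fine (ex : ℕ → Prop) (D S : Set Pt) (t : ℕ) : Prop :=
  ∀ k < t, ex k → (k, 0) ∈ S ∨ Unt D S k

/-- alive edges -/
def AE (ex : ℕ → Prop) (E : Set Pt → Prop) (D S : Set Pt) (t : ℕ) (f : Set Pt) : Prop :=
  ∃ X, E X ∧ (∀ p ∈ X, p ∉ D) ∧ ∀ p ∈ X, p ∈ ch ex t ∨ p ∈ S ∨ p ∈ f

/-- vertices of lower levels -/
def Low (ex : ℕ → Prop) (t : ℕ) (p : Pt) : Prop := ex p.1 ∧ p.1 < t

/-- conflicts at level `t` -/
inductive Conf (ex : ℕ → Prop) (E : Set Pt → Prop) (D S : Set Pt) (t : ℕ) : Prop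
  | c0 (h : AE ex E D S t ∅) : Conf ex E D S t
  | c1 (w : Pt) (hw : Fr D S w) (lw : ¬ Low ex t w) (sw : w.2 < 5) (h : AE ex E D S t {w}) :
      Conf ex E D S t
  | c2 (u v w : Pt) (hu : Fr D S u) (hv : Fr D S v) (hw : Fr D S w) (lu : ¬ Low ex t u)
      (lv : ¬ Low ex t v) (lw : ¬ Low ex t w) (su : u.2 < 5) (sv : v.2 < 5) (sw : w.2 < 5)
      (huv : u ≠ v) (huw : u ≠ w) (hvw : v ≠ w)
      (h1 : AE ex E D S t {u, v}) (h2 : AE ex E D S t {u, w}) : Conf ex E D S t
  | ch (ht : ex t) (hU : Unt D S t) (g : Pt) (hg : Fr D S g) (lg : ¬ Low ex t g) (hgt : g.1 ≠ t)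
      (sg : g.2 < 5) (h : ∀ b, AE ex E D S t {L t b, (t, 1), g}) : Conf ex E D S t

/-- broken positions -/
def Broken (ex : ℕ → Prop) (E : Set Pt → Prop) (D S : Set Pt) : Prop :=
  ∃ t, Fine ex D S t ∧ Conf ex E D S t

section

variable {ex un : ℕ → Prop} {E : Set Pt → Prop} {D S : Set Pt} {c z : Pt}

theorem AE.up {t : ℕ} {f f' : Set Pt} (h : AE ex E D S t f) (hf : ∀ p ∈ f, p = c ∨ p ∈ f')
    (h1 : z ∉ ch ex t) (h2 : z ∉ S) (h3 : z ∉ f) : AE ex E (insert z D) (insert c S) t f' := by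
  obtain ⟨X, hX, hd, hs⟩ := h
  refine ⟨X, hX, ?_, ?_⟩
  · intro p hp hp2
    rcases Set.mem_insert_iff.1 hp2 with rfl | hp2
    · rcases hs p hp with h | h | h
      · exact h1 h
      · exact h2 h
      · exact h3 h
    · exact hd p hp hp2
  · intro p hp
    rcases hs p hp with h | h | h
    · exact Or.inl h
    · exact Or.inr (Or.inl (Or.inr h))
    · rcases hf p h with h | h
      · exact Or.inr (Or.inl (Or.inl h))
      · exact Or.inr (Or.inr h)

theorem Fr.up {p : Pt} (h : Fr D S p) (h1 : p ≠ z) (h2 : p ≠ c) : Fr (insert z D) (insert c S) p := by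
  constructor
  · rintro (h3 | h3)
    · exact h1 h3
    · exact h.1 h3
  · rintro (h3 | h3)
    · exact h2 h3
    · exact h.2 h3

theorem Unt.up {j : ℕ} (h : Unt D S j) (h1 : z.1 = j → 5 ≤ z.2) (h2 : c.1 = j → 5 ≤ c.2) :
    Unt (insert z D) (insert c S) j := by
  intro k hk
  refine (h k hk).up ?_ ?_
  · rintro rfl
    exact absurd (h1 rfl) (by simpa using hk)
  · rintro rfl
    exact absurd (h2 rfl) (by simpa using hk)

theorem Fine.up {t : ℕ} (h : Fine ex D S t)
    (h1 : ∀ k < t, ex k → Unt D S k → ((z.1 = k → 5 ≤ z.2) ∧ (c.1 = k → 5 ≤ c.2)) ∨ c = (k, 0)) :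
    Fine ex (insert z D) (insert c S) t := by
  intro k hk he
  rcases h k hk he with h2 | h2
  · exact Or.inl (Or.inr h2)
  · rcases h1 k hk he h2 with ⟨h3, h4⟩ | h3
    · exact Or.inr (h2.up h3 h4)
    · exact Or.inl (Or.inl h3.symm)

/-- the responses inside an untouched level -/
def good (cc zz : ℕ) : Prop :=
  (cc = 0 ∧ zz = 2) ∨ (cc = 1 ∧ (zz = 0 ∨ zz = 2 ∨ zz = 3 ∨ zz = 4)) ∨
    (cc = 3 ∧ (zz = 4 ∨ zz = 2)) ∨ (cc = 4 ∧ (zz = 3 ∨ zz = 2))

theorem imp (H : HypE ex un E) (hdis : ∀ p ∈ D, p ∉ S) {k : ℕ} (hk : ex k)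
    (hF : Fine ex D S k) (hU : Unt D S k) {cc : ℕ} (hcc : cc < 5) (hz : Fr D S z)
    (hlow : ∀ k' < k, ex k' → Unt D S k' → z.1 = k' → 5 ≤ z.2)
    (hg : z.1 = k → 5 ≤ z.2 ∨ good cc z.2) : Broken ex E (insert z D) (insert (k, cc) S) := by
  have hch : ∀ p ∈ ch ex k, p ∉ insert z D := by
    rintro ⟨i, l⟩ ⟨h1, h2, h3⟩ h4
    simp only at h1 h2 h3
    subst h3
    rcases hF i h2 h1 with h5 | h5
    · rcases h4 with rfl | h4
      · exact hz.2 h5
      · exact hdis _ h4 h5
    · rcases h4 with rfl | h4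
      · exact absurd (hlow i h2 h1 h5 rfl) (by norm_num)
      · exact (h5 0 (by norm_num)).1 h4
  have hn : ∀ i < 5, (k, i) ≠ z → (k, i) ∉ insert z D := by
    intro i hi hne h
    rcases h with h | h
    · exact hne h
    · exact (hU i hi).1 h
  have mk : ∀ (F f : Set Pt), E (ch ex k ∪ F) → (∀ p ∈ F, p ∉ insert z D) →
      (∀ p ∈ F, p ∈ insert (k, cc) S ∨ p ∈ f) → AE ex E (insert z D) (insert (k, cc) S) k f := by
    intro F f h1 h2 h3
    refine ⟨_, h1, ?_, ?_⟩
    · rintro p (hp | hp)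
      · exact hch p hp
      · exact h2 p hp
    · rintro p (hp | hp)
      · exact Or.inl hp
      · exact Or.inr (h3 p hp)
  have c2 : ∀ i j l : ℕ, i < 5 → j < 5 → l < 5 → i ≠ j → i ≠ l → j ≠ l → i ≠ cc → j ≠ cc → l ≠ cc →
      (k, i) ≠ z → (k, j) ≠ z → (k, l) ≠ z →
      AE ex E (insert z D) (insert (k, cc) S) k {(k, i), (k, j)} →
      AE ex E (insert z D) (insert (k, cc) S) k {(k, i), (k, l)} →
      Conf ex E (insert z D) (insert (k, cc) S) k := by
    intro i j l hi hj hl hij hil hjl hic hjc hlc hiz hjz hlz h1 h2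
    have hlo : ∀ i, ¬ Low ex k (k, i) := fun i h => lt_irrefl _ h.2
    refine Conf.c2 (k, i) (k, j) (k, l) ((hU i hi).up hiz ?_) ((hU j hj).up hjz ?_)
      ((hU l hl).up hlz ?_) (hlo i) (hlo j) (hlo l) hi hj hl ?_ ?_ ?_ h1 h2 <;>
    · simp only [ne_eq, Prod.mk.injEq, true_and]
      assumption
  refine ⟨k, hF.up ?_, ?_⟩
  · intro k' hk' he hu
    refine Or.inl ⟨hlow k' hk' he hu, ?_⟩
    intro h
    exact absurd h (by simp only; omega)
  have nz : ∀ i, (z.1 = k → z.2 ≠ i) → (k, i) ≠ z := by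
    rintro i h rfl
    exact h rfl rfl
  have hgd : z.1 = k → 5 ≤ z.2 ∨ good cc z.2 := hg
  unfold good at hgd
  have h5 : cc = 0 ∨ cc = 1 ∨ cc = 2 ∨ cc = 3 ∨ cc = 4 := by omega
  rcases h5 with rfl | rfl | rfl | rfl | rfl
  · have n0 : (k, 0) ≠ z := nz 0 (by omega)
    have n1 : (k, 1) ≠ z := nz 1 (by omega)
    have n3 : (k, 3) ≠ z := nz 3 (by omega)
    have n4 : (k, 4) ≠ z := nz 4 (by omega)
    refine c2 3 4 1 (by norm_num) (by norm_num) (by norm_num) (by norm_num) (by norm_num)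
      (by norm_num) (by norm_num) (by norm_num) (by norm_num) n3 n4 n1
      (mk _ _ (H.e1 k hk) ?_ ?_) (mk _ _ (H.e1q k hk false) ?_ ?_)
    · rintro p (rfl | rfl | rfl)
      exacts [hn _ (by norm_num) n0, hn _ (by norm_num) n3, hn _ (by norm_num) n4]
    · rintro p (rfl | rfl | rfl) <;> simp
    · rintro p (rfl | rfl | rfl)
      exacts [hn _ (by norm_num) n0, hn _ (by norm_num) n3, hn _ (by norm_num) n1]
    · rintro p (rfl | rfl | rfl) <;> simp [L]
  · by_cases z0 : z = (k, 0)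
    · subst z0
      have n1 : (k, 1) ≠ (k, 0) := by simp
      have n2 : (k, 2) ≠ (k, 0) := by simp
      have n3 : (k, 3) ≠ (k, 0) := by simp
      have n4 : (k, 4) ≠ (k, 0) := by simp
      refine c2 2 3 4 (by norm_num) (by norm_num) (by norm_num) (by norm_num) (by norm_num)
        (by norm_num) (by norm_num) (by norm_num) (by norm_num) n2 n3 n4
        (mk _ _ (H.e2 k hk false) ?_ ?_) (mk _ _ (H.e2 k hk true) ?_ ?_)
      · rintro p (rfl | rfl | rfl)
        exacts [hn _ (by norm_num) n3, hn _ (by norm_num) n1, hn _ (by norm_num) n2]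
      · rintro p (rfl | rfl | rfl) <;> simp [L]
      · rintro p (rfl | rfl | rfl)
        exacts [hn _ (by norm_num) n4, hn _ (by norm_num) n1, hn _ (by norm_num) n2]
      · rintro p (rfl | rfl | rfl) <;> simp [L]
    by_cases z3 : z = (k, 3)
    · subst z3
      have n0 : (k, 0) ≠ (k, 3) := by simp
      have n1 : (k, 1) ≠ (k, 3) := by simp
      have n2 : (k, 2) ≠ (k, 3) := by simp
      have n4 : (k, 4) ≠ (k, 3) := by simp
      refine c2 4 0 2 (by norm_num) (by norm_num) (by norm_num) (by norm_num) (by norm_num)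
        (by norm_num) (by norm_num) (by norm_num) (by norm_num) n4 n0 n2
        (mk _ _ (H.e1q k hk true) ?_ ?_) (mk _ _ (H.e2 k hk true) ?_ ?_)
      · rintro p (rfl | rfl | rfl)
        exacts [hn _ (by norm_num) n0, hn _ (by norm_num) n4, hn _ (by norm_num) n1]
      · rintro p (rfl | rfl | rfl) <;> simp [L]
      · rintro p (rfl | rfl | rfl)
        exacts [hn _ (by norm_num) n4, hn _ (by norm_num) n1, hn _ (by norm_num) n2]
      · rintro p (rfl | rfl | rfl) <;> simp [L]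
    by_cases z4 : z = (k, 4)
    · subst z4
      have n0 : (k, 0) ≠ (k, 4) := by simp
      have n1 : (k, 1) ≠ (k, 4) := by simp
      have n2 : (k, 2) ≠ (k, 4) := by simp
      have n3 : (k, 3) ≠ (k, 4) := by simp
      refine c2 3 0 2 (by norm_num) (by norm_num) (by norm_num) (by norm_num) (by norm_num)
        (by norm_num) (by norm_num) (by norm_num) (by norm_num) n3 n0 n2
        (mk _ _ (H.e1q k hk false) ?_ ?_) (mk _ _ (H.e2 k hk false) ?_ ?_)
      · rintro p (rfl | rfl | rfl)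
        exacts [hn _ (by norm_num) n0, hn _ (by norm_num) n3, hn _ (by norm_num) n1]
      · rintro p (rfl | rfl | rfl) <;> simp [L]
      · rintro p (rfl | rfl | rfl)
        exacts [hn _ (by norm_num) n3, hn _ (by norm_num) n1, hn _ (by norm_num) n2]
      · rintro p (rfl | rfl | rfl) <;> simp [L]
    have n0 : (k, 0) ≠ z := fun h => z0 h.symm
    have n1 : (k, 1) ≠ z := nz 1 (by omega)
    have n3 : (k, 3) ≠ z := fun h => z3 h.symm
    have n4 : (k, 4) ≠ z := fun h => z4 h.symm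
    refine c2 0 3 4 (by norm_num) (by norm_num) (by norm_num) (by norm_num) (by norm_num)
      (by norm_num) (by norm_num) (by norm_num) (by norm_num) n0 n3 n4
      (mk _ _ (H.e1q k hk false) ?_ ?_) (mk _ _ (H.e1q k hk true) ?_ ?_)
    · rintro p (rfl | rfl | rfl)
      exacts [hn _ (by norm_num) n0, hn _ (by norm_num) n3, hn _ (by norm_num) n1]
    · rintro p (rfl | rfl | rfl) <;> simp [L]
    · rintro p (rfl | rfl | rfl)
      exacts [hn _ (by norm_num) n0, hn _ (by norm_num) n4, hn _ (by norm_num) n1]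
    · rintro p (rfl | rfl | rfl) <;> simp [L]
  · have n1 : (k, 1) ≠ z := nz 1 (by omega)
    have n2 : (k, 2) ≠ z := nz 2 (by omega)
    have n3 : (k, 3) ≠ z := nz 3 (by omega)
    have n4 : (k, 4) ≠ z := nz 4 (by omega)
    refine c2 1 3 4 (by norm_num) (by norm_num) (by norm_num) (by norm_num) (by norm_num)
      (by norm_num) (by norm_num) (by norm_num) (by norm_num) n1 n3 n4
      (mk _ _ (H.e2 k hk false) ?_ ?_) (mk _ _ (H.e2 k hk true) ?_ ?_)
    · rintro p (rfl | rfl | rfl)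
      exacts [hn _ (by norm_num) n3, hn _ (by norm_num) n1, hn _ (by norm_num) n2]
    · rintro p (rfl | rfl | rfl) <;> simp [L]
    · rintro p (rfl | rfl | rfl)
      exacts [hn _ (by norm_num) n4, hn _ (by norm_num) n1, hn _ (by norm_num) n2]
    · rintro p (rfl | rfl | rfl) <;> simp [L]
  · have n0 : (k, 0) ≠ z := nz 0 (by omega)
    have n1 : (k, 1) ≠ z := nz 1 (by omega)
    have n3 : (k, 3) ≠ z := nz 3 (by omega)
    by_cases z4 : z = (k, 4)
    · subst z4
      have n2 : (k, 2) ≠ (k, 4) := by simp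
      refine c2 1 0 2 (by norm_num) (by norm_num) (by norm_num) (by norm_num) (by norm_num)
        (by norm_num) (by norm_num) (by norm_num) (by norm_num) n1 n0 n2
        (mk _ _ (H.e1q k hk false) ?_ ?_) (mk _ _ (H.e2 k hk false) ?_ ?_)
      · rintro p (rfl | rfl | rfl)
        exacts [hn _ (by norm_num) n0, hn _ (by norm_num) n3, hn _ (by norm_num) n1]
      · rintro p (rfl | rfl | rfl) <;> simp [L]
      · rintro p (rfl | rfl | rfl)
        exacts [hn _ (by norm_num) n3, hn _ (by norm_num) n1, hn _ (by norm_num) n2]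
      · rintro p (rfl | rfl | rfl) <;> simp [L]
    have n4 : (k, 4) ≠ z := fun h => z4 h.symm
    refine c2 0 4 1 (by norm_num) (by norm_num) (by norm_num) (by norm_num) (by norm_num)
      (by norm_num) (by norm_num) (by norm_num) (by norm_num) n0 n4 n1
      (mk _ _ (H.e1 k hk) ?_ ?_) (mk _ _ (H.e1q k hk false) ?_ ?_)
    · rintro p (rfl | rfl | rfl)
      exacts [hn _ (by norm_num) n0, hn _ (by norm_num) n3, hn _ (by norm_num) n4]
    · rintro p (rfl | rfl | rfl) <;> simp [L]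
    · rintro p (rfl | rfl | rfl)
      exacts [hn _ (by norm_num) n0, hn _ (by norm_num) n3, hn _ (by norm_num) n1]
    · rintro p (rfl | rfl | rfl) <;> simp [L]
  · have n0 : (k, 0) ≠ z := nz 0 (by omega)
    have n1 : (k, 1) ≠ z := nz 1 (by omega)
    have n4 : (k, 4) ≠ z := nz 4 (by omega)
    by_cases z3 : z = (k, 3)
    · subst z3
      have n2 : (k, 2) ≠ (k, 3) := by simp
      refine c2 1 0 2 (by norm_num) (by norm_num) (by norm_num) (by norm_num) (by norm_num)
        (by norm_num) (by norm_num) (by norm_num) (by norm_num) n1 n0 n2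
        (mk _ _ (H.e1q k hk true) ?_ ?_) (mk _ _ (H.e2 k hk true) ?_ ?_)
      · rintro p (rfl | rfl | rfl)
        exacts [hn _ (by norm_num) n0, hn _ (by norm_num) n4, hn _ (by norm_num) n1]
      · rintro p (rfl | rfl | rfl) <;> simp [L]
      · rintro p (rfl | rfl | rfl)
        exacts [hn _ (by norm_num) n4, hn _ (by norm_num) n1, hn _ (by norm_num) n2]
      · rintro p (rfl | rfl | rfl) <;> simp [L]
    have n3 : (k, 3) ≠ z := fun h => z3 h.symm
    refine c2 0 3 1 (by norm_num) (by norm_num) (by norm_num) (by norm_num) (by norm_num)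
      (by norm_num) (by norm_num) (by norm_num) (by norm_num) n0 n3 n1
      (mk _ _ (H.e1 k hk) ?_ ?_) (mk _ _ (H.e1q k hk true) ?_ ?_)
    · rintro p (rfl | rfl | rfl)
      exacts [hn _ (by norm_num) n0, hn _ (by norm_num) n3, hn _ (by norm_num) n4]
    · rintro p (rfl | rfl | rfl) <;> simp [L]
    · rintro p (rfl | rfl | rfl)
      exacts [hn _ (by norm_num) n0, hn _ (by norm_num) n4, hn _ (by norm_num) n1]
    · rintro p (rfl | rfl | rfl) <;> simp [L]

end

end Pool.Agent.Q227.WD
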