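import Pool.Agent.H656R2.AK.Defs

/-!
# The Waiter-Client domination game
-/

namespace Pool.Agent.Q227.WD

open Pool.Agent.H656R2.AK

/-- The Waiter-Client domination game on the graph `G`. A position is given by the set `D` of the
vertices claimed by Dominator (Waiter) and the set `S` of the vertices claimed by Staller (Client);
`DomWins G D S` says that Dominator has a winning strategy from this position, at the start of a
round.

* `done`: the vertices claimed by Dominator contain a dominating set (equivalently, they form one).
* `offer`: Dominator selects two different unclaimed vertices `u` and `v`; Staller takes one of them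
  and the other one becomes Dominator's; Dominator wins in both cases.
* `last`: exactly one vertex is unclaimed; Staller receives it. -/
inductive DomWins {V : Type*} (G : SimpleGraph V) : Set V → Set V → Prop
  | done {D S : Set V} (h : ∀ v, v ∈ D ∨ ∃ u ∈ D, G.Adj u v) : DomWins G D S
  | offer {D S : Set V} (u v : V) (hu : u ∉ D ∪ S) (hv : v ∉ D ∪ S) (huv : u ≠ v)
      (h1 : DomWins G (insert v D) (insert u S)) (h2 : DomWins G (insert u D) (insert v S)) :
      DomWins G D S
  | last {D S : Set V} (u : V) (hu : (D ∪ S)ᶜ = {u}) (h : DomWins G D (insert u S)) :
      DomWins G D S

/-- The decision problem WC-DOM: given (the adjacency matrix of) a graph, does Dominator have a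
winning strategy in the Waiter-Client domination game on this graph? -/
def WCDom (M : List (List Bool)) : Prop :=
  ∃ (n : ℕ) (G : SimpleGraph (Fin n)), adjMatrix G = M ∧ DomWins G ∅ ∅

end Pool.Agent.Q227.WD
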