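import Pool.Agent.Q227.WD.LW
import Pool.Agent.Q227.WD.Sk

/-!
# The hypergraph of a quantified formula
-/

namespace Pool.Agent.Q227.WD

open Pool.Agent.H623R2.PS Pool.Agent.H656R2.AK

/-- existential variables -/
def exQ (Q : QF) (j : ℕ) : Prop := Q.1.getD j true = false

/-- universal variables -/
def unQ (Q : QF) (j : ℕ) : Prop := Q.1.getD j false = true

theorem exQ_lt {Q : QF} {j : ℕ} (h : exQ Q j) : j < Q.1.length := by
  by_contra hc
  unfold exQ at h
  rw [List.getD_eq_default _ _ (by omega)] at h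
  exact absurd h (by simp)

theorem unQ_lt {Q : QF} {j : ℕ} (h : unQ Q j) : j < Q.1.length := by
  by_contra hc
  unfold unQ at h
  rw [List.getD_eq_default _ _ (by omega)] at h
  exact absurd h (by simp)

theorem ex_or_un {Q : QF} {j : ℕ} (h : j < Q.1.length) : exQ Q j ∨ unQ Q j := by
  unfold exQ unQ
  rw [List.getD_eq_getElem _ _ h, List.getD_eq_getElem _ _ h]
  cases Q.1[j] <;> simp

theorem exQ_not_un {Q : QF} {j : ℕ} (h : exQ Q j) : ¬ unQ Q j := by
  intro h2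
  have hl := exQ_lt h
  unfold exQ at h
  unfold unQ at h2
  rw [List.getD_eq_getElem _ _ hl] at h h2
  rw [h] at h2
  exact absurd h2 (by simp)

/-- the chain as a list -/
def chL (Q : QF) (t : ℕ) : List Pt :=
  ((List.range Q.1.length).filter fun k => decide (k < t) && !(Q.1.getD k true)).map fun k => (k, 0)

theorem mem_chL {Q : QF} {t : ℕ} {p : Pt} : p ∈ chL Q t ↔ p ∈ ch (exQ Q) t := by
  obtain ⟨a, b⟩ := p
  simp only [chL, List.mem_map, List.mem_filter, List.mem_range, Prod.mk.injEq, ch, exQ,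
    Set.mem_setOf_eq, Bool.not_eq_true', Bool.and_eq_true, decide_eq_true_eq]
  constructor
  · rintro ⟨k, ⟨h0, h1, h2⟩, rfl, rfl⟩
    exact ⟨h2, h1, rfl⟩
  · rintro ⟨h1, h2, rfl⟩
    exact ⟨a, ⟨exQ_lt h1, h2, h1⟩, rfl, rfl⟩

/-- the edges with a universal variable -/
def uL (Q : QF) (j : ℕ) : List (List Pt) := (List.range Q.1.length).flatMap fun i =>
  if (decide (j < i) && Q.1.getD i false) = true then
    [chL Q j ++ [(j, 3), (j, 1), (i, 3), (i, 1)], chL Q j ++ [(j, 3), (j, 1), (i, 4), (i, 2)],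
      chL Q j ++ [(j, 4), (j, 1), (i, 3), (i, 1)], chL Q j ++ [(j, 4), (j, 1), (i, 4), (i, 2)]]
  else []

/-- the edges of a level -/
def lvL (Q : QF) (j : ℕ) : List (List Pt) :=
  if (!(Q.1.getD j true)) = true then
    [chL Q j ++ [(j, 0), (j, 3), (j, 4)], chL Q j ++ [(j, 0), (j, 3), (j, 1)],
      chL Q j ++ [(j, 0), (j, 4), (j, 1)], chL Q j ++ [(j, 3), (j, 1), (j, 2)],
      chL Q j ++ [(j, 4), (j, 1), (j, 2)]] ++ uL Q j
  else [chL Q j ++ [(j, 3), (j, 4)]]

/-- the edges of the clauses -/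
def clL (Q : QF) : List (List Pt) := Q.2.map fun c =>
  chL Q Q.1.length ++ c.map fun l => (l.2, if l.1 = true then 4 else 3)

/-- the edge of all vertices -/
def allL (Q : QF) : List Pt := List.range (Q.1.length + 1) ×ˢ List.range 5

/-- all edges -/
def edL (Q : QF) : List (List Pt) :=
  [allL Q] ++ ((List.range Q.1.length).flatMap (lvL Q) ++ clL Q)

/-- the forms of the edges of a level -/
inductive Lvf (Q : QF) (j : ℕ) : Set Pt → Prop
  | e1 (h : exQ Q j) : Lvf Q j (ch (exQ Q) j ∪ {(j, 0), (j, 3), (j, 4)})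
  | e1q (h : exQ Q j) (b : Bool) : Lvf Q j (ch (exQ Q) j ∪ {(j, 0), L j b, (j, 1)})
  | e2 (h : exQ Q j) (b : Bool) : Lvf Q j (ch (exQ Q) j ∪ {L j b, (j, 1), (j, 2)})
  | e3 (h : exQ Q j) (i : ℕ) (hi : unQ Q i) (hji : j < i) (b b' : Bool) :
      Lvf Q j (ch (exQ Q) j ∪ {L j b, (j, 1), L i b', gv i b'})
  | e4 (h : unQ Q j) : Lvf Q j (ch (exQ Q) j ∪ {L j false, L j true})

/-- the form of the edge of a clause -/
def clS (Q : QF) (c : List (Bool × ℕ)) : Set Pt :=
  ch (exQ Q) Q.1.length ∪ {p | ∃ l ∈ c, p = L l.2 l.1}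

/-- the sets of the edges -/
def ES (Q : QF) (X : Set Pt) : Prop := ∃ l ∈ edL Q, ∀ p, p ∈ l ↔ p ∈ X

theorem app_iff {Q : QF} {t : ℕ} {l : List Pt} {X : Set Pt} (h : ∀ p, p ∈ l ↔ p ∈ X) (p : Pt) :
    p ∈ chL Q t ++ l ↔ p ∈ ch (exQ Q) t ∪ X := by
  rw [List.mem_append, mem_chL, h]
  rfl

theorem lvL_of_lvf {Q : QF} {j : ℕ} {X : Set Pt} (h : Lvf Q j X) :
    ∃ l ∈ lvL Q j, ∀ p, p ∈ l ↔ p ∈ X := by
  cases h with
  | e1 h =>
    unfold lvL
    rw [if_pos (by rw [h]; rfl)]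
    exact ⟨_, List.mem_append_left _ (by simp), app_iff (l := [(j, 0), (j, 3), (j, 4)]) (by simp)⟩
  | e1q h b =>
    unfold lvL
    rw [if_pos (by rw [h]; rfl)]
    cases b
    · exact ⟨_, List.mem_append_left _ (by simp), app_iff (l := [(j, 0), (j, 3), (j, 1)])
        (by simp [L])⟩
    · exact ⟨_, List.mem_append_left _ (by simp), app_iff (l := [(j, 0), (j, 4), (j, 1)])
        (by simp [L])⟩
  | e2 h b =>
    unfold lvL
    rw [if_pos (by rw [h]; rfl)]
    cases b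
    · exact ⟨_, List.mem_append_left _ (by simp), app_iff (l := [(j, 3), (j, 1), (j, 2)])
        (by simp [L])⟩
    · exact ⟨_, List.mem_append_left _ (by simp), app_iff (l := [(j, 4), (j, 1), (j, 2)])
        (by simp [L])⟩
  | e3 h i hi hji b b' =>
    unfold lvL
    rw [if_pos (by rw [h]; rfl)]
    have key : ∀ l ∈ [chL Q j ++ [(j, 3), (j, 1), (i, 3), (i, 1)],
        chL Q j ++ [(j, 3), (j, 1), (i, 4), (i, 2)], chL Q j ++ [(j, 4), (j, 1), (i, 3), (i, 1)],
        chL Q j ++ [(j, 4), (j, 1), (i, 4), (i, 2)]], l ∈ uL Q j := by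
      intro l hl
      unfold uL
      rw [List.mem_flatMap]
      refine ⟨i, List.mem_range.2 (unQ_lt hi), ?_⟩
      rw [if_pos (by rw [hi]; simpa using hji)]
      exact hl
    cases b <;> cases b'
    · exact ⟨_, List.mem_append_right _ (key _ (by simp)),
        app_iff (l := [(j, 3), (j, 1), (i, 3), (i, 1)]) (by simp [L, gv])⟩
    · exact ⟨_, List.mem_append_right _ (key _ (by simp)),
        app_iff (l := [(j, 3), (j, 1), (i, 4), (i, 2)]) (by simp [L, gv])⟩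
    · exact ⟨_, List.mem_append_right _ (key _ (by simp)),
        app_iff (l := [(j, 4), (j, 1), (i, 3), (i, 1)]) (by simp [L, gv])⟩
    · exact ⟨_, List.mem_append_right _ (key _ (by simp)),
        app_iff (l := [(j, 4), (j, 1), (i, 4), (i, 2)]) (by simp [L, gv])⟩
  | e4 h =>
    unfold lvL
    rw [if_neg (by
      intro h2
      have : exQ Q j := by
        unfold exQ
        simpa using h2
      exact exQ_not_un this h)]
    exact ⟨_, by simp, app_iff (l := [(j, 3), (j, 4)]) (by simp [L])⟩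

theorem lvf_of_lvL {Q : QF} {j : ℕ} (hj : j < Q.1.length) {l : List Pt} (h : l ∈ lvL Q j) :
    ∃ X, Lvf Q j X ∧ ∀ p, p ∈ l ↔ p ∈ X := by
  unfold lvL at h
  split_ifs at h with h1
  · have he : exQ Q j := by
      unfold exQ
      simpa using h1
    rw [List.mem_append] at h
    rcases h with h | h
    · simp only [List.mem_cons, List.not_mem_nil, or_false] at h
      rcases h with rfl | rfl | rfl | rfl | rfl
      · exact ⟨_, .e1 he, app_iff (by simp)⟩
      · exact ⟨_, .e1q he false, app_iff (by simp [L])⟩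
      · exact ⟨_, .e1q he true, app_iff (by simp [L])⟩
      · exact ⟨_, .e2 he false, app_iff (by simp [L])⟩
      · exact ⟨_, .e2 he true, app_iff (by simp [L])⟩
    · unfold uL at h
      rw [List.mem_flatMap] at h
      obtain ⟨i, hi, h⟩ := h
      split_ifs at h with h2
      · rw [Bool.and_eq_true, decide_eq_true_eq] at h2
        simp only [List.mem_cons, List.not_mem_nil, or_false] at h
        rcases h with rfl | rfl | rfl | rfl
        · exact ⟨_, .e3 he i h2.2 h2.1 false false, app_iff (by simp [L, gv])⟩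
        · exact ⟨_, .e3 he i h2.2 h2.1 false true, app_iff (by simp [L, gv])⟩
        · exact ⟨_, .e3 he i h2.2 h2.1 true false, app_iff (by simp [L, gv])⟩
        · exact ⟨_, .e3 he i h2.2 h2.1 true true, app_iff (by simp [L, gv])⟩
      · simp at h
  · have he : unQ Q j := by
      rcases ex_or_un hj with h2 | h2
      · exfalso
        rw [h2] at h1
        exact h1 rfl
      · exact h2
    rw [List.mem_singleton] at h
    subst h
    exact ⟨_, .e4 he, app_iff (by simp [L])⟩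

theorem mem_clmap {c : List (Bool × ℕ)} (p : Pt) :
    (p ∈ c.map fun l => ((l.2, if l.1 = true then 4 else 3) : Pt)) ↔
      p ∈ ({p | ∃ l ∈ c, p = L l.2 l.1} : Set Pt) := by
  rw [List.mem_map]
  have e : ∀ l : Bool × ℕ, ((l.2, if l.1 = true then 4 else 3) : Pt) = L l.2 l.1 := by
    rintro ⟨b, i⟩
    cases b <;> simp [L]
  constructor
  · rintro ⟨l, hl, rfl⟩
    exact ⟨l, hl, e l⟩
  · rintro ⟨l, hl, rfl⟩
    exact ⟨l, hl, e l⟩

theorem es_lv {Q : QF} {j : ℕ} {X : Set Pt} (hj : j < Q.1.length) (h : Lvf Q j X) : ES Q X := by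
  obtain ⟨l, hl, h⟩ := lvL_of_lvf h
  refine ⟨l, ?_, h⟩
  unfold edL
  rw [List.mem_append, List.mem_append, List.mem_flatMap]
  exact Or.inr (Or.inl ⟨j, List.mem_range.2 hj, hl⟩)

theorem es_cl {Q : QF} {c : List (Bool × ℕ)} (hc : c ∈ Q.2) : ES Q (clS Q c) := by
  refine ⟨chL Q Q.1.length ++ c.map fun l => (l.2, if l.1 = true then 4 else 3), ?_, app_iff mem_clmap⟩
  unfold edL clL
  rw [List.mem_append, List.mem_append]
  exact Or.inr (Or.inr (List.mem_map.2 ⟨c, hc, rfl⟩))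

/-- the three kinds of edges -/
theorem edL_cases {Q : QF} {l : List Pt} (h : l ∈ edL Q) : l = allL Q ∨
    (∃ j < Q.1.length, ∃ X, Lvf Q j X ∧ ∀ p, p ∈ l ↔ p ∈ X) ∨
    ∃ c ∈ Q.2, ∀ p, p ∈ l ↔ p ∈ clS Q c := by
  unfold edL at h
  rw [List.mem_append, List.mem_append, List.mem_flatMap, List.mem_singleton] at h
  rcases h with h | ⟨j, hj, h⟩ | h
  · exact Or.inl h
  · rw [List.mem_range] at hj
    exact Or.inr (Or.inl ⟨j, hj, lvf_of_lvL hj h⟩)
  · unfold clL at h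
    rw [List.mem_map] at h
    obtain ⟨c, hc, rfl⟩ := h
    exact Or.inr (Or.inr ⟨c, hc, app_iff mem_clmap⟩)

theorem hypE (Q : QF) : HypE (exQ Q) (unQ Q) (ES Q) where
  disj _ h := exQ_not_un h
  e1 _ h := es_lv (exQ_lt h) (.e1 h)
  e1q _ h b := es_lv (exQ_lt h) (.e1q h b)
  e2 _ h b := es_lv (exQ_lt h) (.e2 h b)
  e3 _ i h hi hji b b' := es_lv (exQ_lt h) (.e3 h i hi hji b b')
  e4 _ h := es_lv (unQ_lt h) (.e4 h)

/-- the number of copies -/
def nt (Q : QF) : ℕ := 5 * (Q.1.length + 1) + (edL Q).length + 1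

/-- the vertices -/
def vlQ (Q : QF) : List Pt := allL Q ++
  (List.range (edL Q).length ×ˢ List.range (nt Q)).map fun p => (p.1, 5 + p.2)

theorem mem_allL {Q : QF} {p : Pt} : p ∈ allL Q ↔ p.1 < Q.1.length + 1 ∧ p.2 < 5 := by
  unfold allL
  rw [mem_prod, List.mem_range, List.mem_range]

theorem mem_vlQ {Q : QF} {p : Pt} : p ∈ vlQ Q ↔ (p.1 < Q.1.length + 1 ∧ p.2 < 5) ∨
    ∃ e k, e < (edL Q).length ∧ k < nt Q ∧ p = (e, 5 + k) := by
  unfold vlQ
  rw [List.mem_append, mem_allL, List.mem_map]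
  refine or_congr_right ?_
  constructor
  · rintro ⟨⟨e, k⟩, h, rfl⟩
    rw [mem_prod, List.mem_range, List.mem_range] at h
    exact ⟨e, k, h.1, h.2, rfl⟩
  · rintro ⟨e, k, h1, h2, rfl⟩
    exact ⟨(e, k), mem_prod.2 ⟨List.mem_range.2 h1, List.mem_range.2 h2⟩, rfl⟩

theorem nodup_vlQ (Q : QF) : (vlQ Q).Nodup := by
  unfold vlQ allL
  have hprod : ∀ {α β : Type} {l : List α} {l' : List β}, l.Nodup → l'.Nodup → (l ×ˢ l').Nodup :=
    fun h h' => List.Nodup.product h h'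
  refine List.nodup_append.2 ⟨hprod List.nodup_range List.nodup_range,
    List.Nodup.map ?_ (hprod List.nodup_range List.nodup_range), ?_⟩
  · rintro ⟨a, b⟩ ⟨a', b'⟩ h
    simp only [Prod.mk.injEq] at h ⊢
    omega
  · rintro x hx y hy rfl
    rw [mem_prod, List.mem_range, List.mem_range] at hx
    rw [List.mem_map] at hy
    obtain ⟨p, _, rfl⟩ := hy
    simp only at hx
    omega

/-- half of the adjacency -/
def hQ (Q : QF) (x y : Pt) : Bool :=
  (decide (x.2 < 5) && decide (5 ≤ y.2)) && decide (x ∈ (edL Q).getD y.1 [])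

/-- the adjacency -/
def aQ (Q : QF) (x y : Pt) : Bool := hQ Q x y || hQ Q y x

theorem hQ_iff {Q : QF} {x y : Pt} :
    hQ Q x y = true ↔ (x.2 < 5 ∧ 5 ≤ y.2) ∧ x ∈ (edL Q).getD y.1 [] := by
  unfold hQ
  simp only [Bool.and_eq_true, decide_eq_true_eq]

theorem aQ_symm (Q : QF) (x y : Pt) : aQ Q x y = aQ Q y x := by
  unfold aQ
  exact Bool.or_comm _ _

theorem hQ_self (Q : QF) (x : Pt) : hQ Q x x = false := by
  by_contra h
  rw [Bool.not_eq_false] at h
  have := (hQ_iff.1 h).1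
  omega

theorem aQ_self (Q : QF) (x : Pt) : aQ Q x x = false := by
  unfold aQ
  rw [hQ_self]
  rfl

/-- the game -/
abbrev GQ (Q : QF) : Set Pt → Set Pt → Prop := LW {p | p ∈ vlQ Q} fun x y => aQ Q x y = true

/-! ### Client wins when the formula is false -/

/-- the invariant -/
structure Inv (Q : QF) (sk : (ℕ → Bool) → ℕ → Bool) (D S : Set Pt) : Prop where
  dis : ∀ p ∈ D, p ∉ S
  pos : Pos (exQ Q) (unQ Q) (ES Q) sk D S
  box : Box (Q.1.length + 1) (edL Q).length (nt Q) D S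

theorem Inv.not_dom {Q : QF} {sk : (ℕ → Bool) → ℕ → Bool} {D S : Set Pt} (I : Inv Q sk D S)
    (hcl : ∀ x, ∃ X, ES Q X ∧ ∀ p ∈ X, (exQ Q p.1 ∧ p.2 = 0) ∨
      ∃ i, (exQ Q i ∨ unQ Q i) ∧ p = L i (!sk x i)) :
    ¬ ∀ v ∈ {p | p ∈ vlQ Q}, v ∈ D ∨ ∃ u ∈ D, aQ Q u v = true := by
  intro h
  obtain ⟨X, ⟨l, hl, hX⟩, hD⟩ := pos_alive I.dis hcl I.pos
  obtain ⟨e, he, rfl⟩ := List.getElem_of_mem hl
  obtain ⟨k, hk, hkD⟩ := box_free I.dis I.box (by unfold nt; omega) he
  rcases h (e, 5 + k) (mem_vlQ.2 (Or.inr ⟨e, k, he, hk, rfl⟩)) with h | ⟨u, hu, h⟩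
  · exact hkD h
  · unfold aQ at h
    rw [Bool.or_eq_true, hQ_iff, hQ_iff] at h
    rcases h with ⟨_, h⟩ | ⟨⟨h, _⟩, _⟩
    · simp only at h
      rw [List.getD_eq_getElem _ _ he] at h
      exact hD u ((hX u).1 h) hu
    · simp only at h
      omega

theorem not_GQ {Q : QF} {sk : (ℕ → Bool) → ℕ → Bool} (K : SkH (exQ Q) (unQ Q) sk)
    (hcl : ∀ x, ∃ X, ES Q X ∧ ∀ p ∈ X, (exQ Q p.1 ∧ p.2 = 0) ∨
      ∃ i, (exQ Q i ∨ unQ Q i) ∧ p = L i (!sk x i)) {D S : Set Pt} (h : GQ Q D S) :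
    ¬ Inv Q sk D S := by
  induction h with
  | @done D S h => exact fun I => I.not_dom hcl h
  | @offer D S u v u1 v1 hu hv huv h1 h2 ih1 ih2 =>
    intro I
    have fu : Fr D S u := ⟨fun h => hu (Or.inl h), fun h => hu (Or.inr h)⟩
    have fv : Fr D S v := ⟨fun h => hv (Or.inl h), fun h => hv (Or.inr h)⟩
    have du := mem_vlQ.1 u1
    have dv := mem_vlQ.1 v1
    have hd1 : ∀ p ∈ insert v D, p ∉ insert u S := by
      rintro p (rfl | hp) (h | hp2)
      exacts [huv h.symm, hv (Or.inr hp2), hu (Or.inl (h ▸ hp)), I.dis _ hp hp2]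
    have hd2 : ∀ p ∈ insert u D, p ∉ insert v S := by
      rintro p (rfl | hp) (h | hp2)
      exacts [huv h, hu (Or.inr hp2), hv (Or.inl (h ▸ hp)), I.dis _ hp hp2]
    by_cases hdum : 5 ≤ u.2 ∧ 5 ≤ v.2
    · by_cases hs : ¬ Sec (nt Q) S u.1 ∨ Sec (nt Q) S v.1
      · exact ih1 ⟨hd1, pos_dummy I.pos fv hdum.1 hdum.2,
          box_step I.box hu du (Or.inr (Or.inr hs))⟩
      · push Not at hs
        exact ih2 ⟨hd2, pos_dummy I.pos fu hdum.2 hdum.1,
          box_step I.box hv dv (Or.inr (Or.inr (Or.inr hs.1)))⟩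
    · rcases pos_step (hypE Q) K I.dis I.pos fu fv huv with h | h
      · exact ih1 ⟨hd1, h, box_step I.box hu du (by omega)⟩
      · exact ih2 ⟨hd2, h, box_step I.box hv dv (by omega)⟩
  | @last D S u hu h ih =>
    intro I
    refine I.not_dom hcl (h.dom fun p hp => ?_)
    by_contra hc
    have : p ∈ {p | p ∈ vlQ Q} \ (D ∪ S) :=
      ⟨hp, fun h => hc (h.imp id Or.inr)⟩
    rw [hu] at this
    exact hc (Or.inr (Or.inl this))

theorem false_imp {Q : QF} (hQ : QFwf Q) (h : evq Q.1 (fun w => evc w Q.2) = false) :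
    ¬ GQ Q ∅ ∅ := by
  obtain ⟨sk, h1, h2, h3⟩ := exists_sk Q.1 _ h
  have K : SkH (exQ Q) (unQ Q) sk := ⟨fun x i hi => h1 x i hi, fun x x' i hx hi => h2 x x' i hx hi⟩
  have hcl : ∀ x, ∃ X, ES Q X ∧ ∀ p ∈ X, (exQ Q p.1 ∧ p.2 = 0) ∨
      ∃ i, (exQ Q i ∨ unQ Q i) ∧ p = L i (!sk x i) := by
    intro x
    have h4 := h3 x
    unfold evc at h4
    rw [List.all_eq_false] at h4
    obtain ⟨c, hc, h4⟩ := h4
    refine ⟨clS Q c, es_cl hc, ?_⟩
    rintro p (hp | ⟨l, hl, rfl⟩)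
    · exact Or.inl ⟨hp.1, hp.2.2⟩
    · have hlt := hQ c hc l hl
      refine Or.inr ⟨l.2, ex_or_un hlt, ?_⟩
      have h5 : ¬ (((List.range Q.1.length).map (sk x)).getD l.2 false == l.1) = true := fun h =>
        h4 (List.any_eq_true.2 ⟨l, hl, h⟩)
      rw [List.getD_eq_getElem _ _ (by simpa using hlt)] at h5
      simp only [List.getElem_map, List.getElem_range, beq_iff_eq] at h5
      have h6 : l.1 = !sk x l.2 := by
        revert h5
        cases l.1 <;> cases sk x l.2 <;> simp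
      rw [h6]
  intro hG
  refine not_GQ K hcl hG ⟨fun p hp => absurd hp (by simp), Or.inr ⟨fun _ => false, ?_⟩,
    box_zero _ _ _⟩
  refine ⟨fun j _ => Or.inl fun k _ => ⟨by simp, by simp⟩, fun i _ => Or.inl ⟨⟨by simp, by simp⟩,
    ⟨by simp, by simp⟩⟩, fun i _ _ b => ⟨by simp, by simp⟩⟩

end Pool.Agent.Q227.WD
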