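import Pool.Agent.Q227.WD.Brk

/-!
# Client's strategy: the step in a regular position
-/

namespace Pool.Agent.Q227.WD

variable {ex un : ℕ → Prop} {E : Set Pt → Prop} {D S : Set Pt} {c z s : Pt}

/-- regular positions -/
structure Reg (ex un : ℕ → Prop) (D S : Set Pt) (β : ℕ → Bool) : Prop where
  lev : ∀ j, ex j → Unt D S j ∨ ((j, 0) ∈ S ∧ L j (β j) ∈ D ∧
    ((Fr D S (L j (!β j)) ∧ Fr D S (j, 1)) ∨ (L j (!β j) ∈ S ∧ (j, 1) ∈ D)))
  uni : ∀ i, un i → (Fr D S (L i false) ∧ Fr D S (L i true)) ∨
    (L i (β i) ∈ D ∧ L i (!β i) ∈ S ∧ ∀ j < i, ex j → ¬ Unt D S j)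
  gs : ∀ i, un i → (∃ j < i, ex j ∧ Unt D S j) → ∀ b, Fr D S (gv i b)

/-- strategies -/
structure SkH (ex un : ℕ → Prop) (sk : (ℕ → Bool) → ℕ → Bool) : Prop where
  s1 : ∀ x i, ex i → sk x i = x i
  s2 : ∀ x x' i, (∀ j < i, x j = x' j) → un i → sk x i = sk x' i

/-- good positions for Client -/
def Pos (ex un : ℕ → Prop) (E : Set Pt → Prop) (sk : (ℕ → Bool) → ℕ → Bool) (D S : Set Pt) : Prop :=
  Broken ex E D S ∨ ∃ x, Reg ex un D S (sk x)

theorem Fr.of_up {p : Pt} (h : Fr (insert z D) (insert c S) p) : Fr D S p :=
  ⟨fun h1 => h.1 (Or.inr h1), fun h1 => h.2 (Or.inr h1)⟩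

theorem Unt.of_up {j : ℕ} (h : Unt (insert z D) (insert c S) j) : Unt D S j :=
  fun k hk => (h k hk).of_up

/-- active vertices -/
def Act (ex un : ℕ → Prop) (D S : Set Pt) (β : ℕ → Bool) (p : Pt) : Prop :=
  (ex p.1 ∧ p.2 < 5 ∧ Unt D S p.1) ∨
    (ex p.1 ∧ ¬ Unt D S p.1 ∧ (p = L p.1 (!β p.1) ∨ p = (p.1, 1))) ∨
    (un p.1 ∧ (p.2 = 3 ∨ p.2 = 4)) ∨
    (un p.1 ∧ (p.2 = 1 ∨ p.2 = 2) ∧ ∃ j < p.1, ex j ∧ Unt D S j)

theorem Reg.inact {β : ℕ → Bool} (R : Reg ex un D S β)
    (hc1 : ¬ Act ex un D S β c) (hz1 : ¬ Act ex un D S β z) :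
    Reg ex un (insert z D) (insert c S) β := by
  have nU : ∀ p : Pt, ¬ Act ex un D S β p → ∀ j, ex j → Unt D S j → p.1 = j → 5 ≤ p.2 := by
    rintro p h j hj hu rfl
    by_contra hc
    exact h (Or.inl ⟨hj, by omega, hu⟩)
  have nL : ∀ p : Pt, ¬ Act ex un D S β p → ∀ i, un i → ∀ b, L i b ≠ p := by
    rintro p h i hi b rfl
    refine h (Or.inr (Or.inr (Or.inl ⟨hi, ?_⟩)))
    cases b <;> simp [L]
  constructor
  · intro j hj
    by_cases hu : Unt D S j
    · exact Or.inl (hu.up (nU z hz1 j hj hu) (nU c hc1 j hj hu))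
    · rcases R.lev j hj with h | ⟨h1, h2, h3⟩
      · exact absurd h hu
      · refine Or.inr ⟨Or.inr h1, Or.inr h2, ?_⟩
        rcases h3 with ⟨h3, h4⟩ | ⟨h3, h4⟩
        · have nP : ∀ p : Pt, ¬ Act ex un D S β p → L j (!β j) ≠ p ∧ (j, 1) ≠ p := by
            intro p hp
            constructor
            · rintro rfl
              exact hp (Or.inr (Or.inl ⟨hj, hu, Or.inl rfl⟩))
            · rintro rfl
              exact hp (Or.inr (Or.inl ⟨hj, hu, Or.inr rfl⟩))
          exact Or.inl ⟨h3.up (nP z hz1).1 (nP c hc1).1, h4.up (nP z hz1).2 (nP c hc1).2⟩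
        · exact Or.inr ⟨Or.inr h3, Or.inr h4⟩
  · intro i hi
    rcases R.uni i hi with ⟨h1, h2⟩ | ⟨h1, h2, h3⟩
    · exact Or.inl ⟨h1.up (nL z hz1 i hi _) (nL c hc1 i hi _), h2.up (nL z hz1 i hi _) (nL c hc1 i hi _)⟩
    · exact Or.inr ⟨Or.inr h1, Or.inr h2, fun j hj he hu => h3 j hj he hu.of_up⟩
  · rintro i hi ⟨j, hj, he, hu⟩ b
    have hu' : Unt D S j := hu.of_up
    have nG : ∀ p : Pt, ¬ Act ex un D S β p → gv i b ≠ p := by
      rintro p h rfl
      refine h (Or.inr (Or.inr (Or.inr ⟨hi, ?_, j, hj, he, hu'⟩)))
      cases b <;> simp [gv]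
    exact (R.gs i hi ⟨j, hj, he, hu'⟩ b).up (nG z hz1) (nG c hc1)

theorem Reg.fine {β : ℕ → Bool} (R : Reg ex un D S β) (t : ℕ) : Fine ex D S t := by
  intro k _ hk
  rcases R.lev k hk with h | h
  · exact Or.inr h
  · exact Or.inl h.1

theorem L_inj {i j : ℕ} {b b' : Bool} (h : L i b = L j b') : i = j ∧ b = b' := by
  simp only [L, Prod.mk.injEq] at h
  refine ⟨h.1, ?_⟩
  revert h
  cases b <;> cases b' <;> simp

theorem gv_inj {i j : ℕ} {b b' : Bool} (h : gv i b = gv j b') : i = j ∧ b = b' := by
  simp only [gv, Prod.mk.injEq] at h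
  refine ⟨h.1, ?_⟩
  revert h
  cases b <;> cases b' <;> simp

theorem L_ne_gv {i j : ℕ} {b b' : Bool} : L i b ≠ gv j b' := by
  intro h
  have h1 := L_ge i b
  have h2 := gv_lt j b'
  rw [h] at h1
  omega

/-- Staller gets the chain vertex, Dominator the literal of her choice. -/
theorem Reg.proper (H : HypE ex un E) {sk : (ℕ → Bool) → ℕ → Bool} (K : SkH ex un sk) {x : ℕ → Bool}
    (R : Reg ex un D S (sk x)) {k : ℕ} (hk : ex k) (hU : Unt D S k) (b : Bool) :
    ∃ x', Reg ex un (insert (L k b) D) (insert (k, 0) S) (sk x') := by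
  classical
  refine ⟨fun i => if i = k then b else x i, ?_⟩
  set x' : ℕ → Bool := fun i => if i = k then b else x i with hx'
  have e1 : sk x' k = b := by rw [K.s1 _ _ hk, hx']; simp
  have e2 : ∀ j, ex j → j ≠ k → sk x' j = sk x j := by
    intro j hj hne
    rw [K.s1 _ _ hj, K.s1 _ _ hj, hx']
    simp [hne]
  have e3 : ∀ i, un i → i < k → sk x' i = sk x i := by
    intro i hi hlt
    refine K.s2 _ _ i (fun j hj => ?_) hi
    rw [hx']
    have : j ≠ k := by omega
    simp [this]
  constructor
  · intro j hj
    by_cases e : j = k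
    · subst e
      refine Or.inr ⟨Or.inl rfl, ?_, Or.inl ⟨?_, ?_⟩⟩
      · rw [e1]
        exact Or.inl rfl
      · rw [e1]
        refine (hU _ (L_lt j (!b)) : Fr D S (L j (!b))).up ?_ ?_
        · intro h
          have := (L_inj h).2
          cases b <;> simp at this
        · cases b <;> simp [L]
      · refine (hU 1 (by norm_num)).up ?_ (by simp)
        cases b <;> simp [L]
    · rw [e2 j hj e]
      rcases R.lev j hj with h | ⟨h1, h2, h3⟩
      · exact Or.inl (h.up (fun h => absurd h (Ne.symm e)) (fun h => absurd h (Ne.symm e)))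
      · refine Or.inr ⟨Or.inr h1, Or.inr h2, ?_⟩
        rcases h3 with ⟨h3, h4⟩ | ⟨h3, h4⟩
        · refine Or.inl ⟨h3.up ?_ ?_, h4.up ?_ ?_⟩
          · intro h
            exact e (L_inj h).1
          · intro h
            exact e (congrArg Prod.fst h)
          · intro h
            exact e (congrArg Prod.fst h)
          · intro h
            exact e (congrArg Prod.fst h)
        · exact Or.inr ⟨Or.inr h3, Or.inr h4⟩
  · intro i hi
    have hik : i ≠ k := fun h => H.disj k hk (h ▸ hi)
    rcases R.uni i hi with ⟨h1, h2⟩ | ⟨h1, h2, h3⟩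
    · refine Or.inl ⟨h1.up ?_ ?_, h2.up ?_ ?_⟩
      · intro h
        exact hik (L_inj h).1
      · intro h
        exact hik (congrArg Prod.fst h)
      · intro h
        exact hik (L_inj h).1
      · intro h
        exact hik (congrArg Prod.fst h)
    · have hlt : i < k := by
        by_contra hc
        exact h3 k (by omega) hk hU
      rw [e3 i hi hlt]
      exact Or.inr ⟨Or.inr h1, Or.inr h2, fun j hj he hu => h3 j hj he hu.of_up⟩
  · rintro i hi ⟨j, hj, he, hu⟩ b'
    have hik : i ≠ k := fun h => H.disj k hk (h ▸ hi)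
    refine (R.gs i hi ⟨j, hj, he, hu.of_up⟩ b').up ?_ ?_
    · intro h
      exact L_ne_gv h.symm
    · intro h
      exact hik (congrArg Prod.fst h)

/-- The pending pair is offered. -/
theorem Reg.pend (H : HypE ex un E) {β : ℕ → Bool} (R : Reg ex un D S β) {k : ℕ} (hk : ex k)
    (hU : ¬ Unt D S k) : Reg ex un (insert (k, 1) D) (insert (L k (!β k)) S) β := by
  constructor
  · intro j hj
    by_cases e : j = k
    · subst e
      rcases R.lev j hj with h | ⟨h1, h2, h3⟩
      · exact absurd h hU
      · exact Or.inr ⟨Or.inr h1, Or.inr h2, Or.inr ⟨Or.inl rfl, Or.inl rfl⟩⟩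
    · rcases R.lev j hj with h | ⟨h1, h2, h3⟩
      · exact Or.inl (h.up (fun h => absurd h (Ne.symm e)) (fun h => absurd h (Ne.symm e)))
      · refine Or.inr ⟨Or.inr h1, Or.inr h2, ?_⟩
        rcases h3 with ⟨h3, h4⟩ | ⟨h3, h4⟩
        · refine Or.inl ⟨h3.up ?_ ?_, h4.up ?_ ?_⟩
          · intro h
            exact e (congrArg Prod.fst h)
          · intro h
            exact e (L_inj h).1
          · intro h
            exact e (congrArg Prod.fst h)
          · intro h
            exact e (congrArg Prod.fst h)
        · exact Or.inr ⟨Or.inr h3, Or.inr h4⟩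
  · intro i hi
    have hik : i ≠ k := fun h => H.disj k hk (h ▸ hi)
    rcases R.uni i hi with ⟨h1, h2⟩ | ⟨h1, h2, h3⟩
    · refine Or.inl ⟨h1.up ?_ ?_, h2.up ?_ ?_⟩
      · intro h
        exact hik (congrArg Prod.fst h)
      · intro h
        exact hik (L_inj h).1
      · intro h
        exact hik (congrArg Prod.fst h)
      · intro h
        exact hik (L_inj h).1
    · exact Or.inr ⟨Or.inr h1, Or.inr h2, fun j hj he hu => h3 j hj he hu.of_up⟩
  · rintro i hi ⟨j, hj, he, hu⟩ b'
    have hik : i ≠ k := fun h => H.disj k hk (h ▸ hi)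
    refine (R.gs i hi ⟨j, hj, he, hu.of_up⟩ b').up ?_ ?_
    · intro h
      exact hik (congrArg Prod.fst h)
    · intro h
      exact L_ne_gv h.symm

/-- The two literals of a universal variable are offered. -/
theorem Reg.lit (H : HypE ex un E) {β : ℕ → Bool} (R : Reg ex un D S β) {k : ℕ} (hk : un k)
    (hU : ∀ j < k, ex j → ¬ Unt D S j) : Reg ex un (insert (L k (β k)) D)
      (insert (L k (!β k)) S) β := by
  have hjk : ∀ j, ex j → j ≠ k := fun j hj h => H.disj j hj (h ▸ hk)
  constructor
  · intro j hj
    have e := hjk j hj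
    rcases R.lev j hj with h | ⟨h1, h2, h3⟩
    · exact Or.inl (h.up (fun h => absurd h (Ne.symm e)) (fun h => absurd h (Ne.symm e)))
    · refine Or.inr ⟨Or.inr h1, Or.inr h2, ?_⟩
      rcases h3 with ⟨h3, h4⟩ | ⟨h3, h4⟩
      · refine Or.inl ⟨h3.up ?_ ?_, h4.up ?_ ?_⟩
        · intro h
          exact e (L_inj h).1
        · intro h
          exact e (L_inj h).1
        · intro h
          exact e (congrArg Prod.fst h)
        · intro h
          exact e (congrArg Prod.fst h)
      · exact Or.inr ⟨Or.inr h3, Or.inr h4⟩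
  · intro i hi
    by_cases e : i = k
    · subst e
      exact Or.inr ⟨Or.inl rfl, Or.inl rfl, fun j hj he hu => hU j hj he hu.of_up⟩
    · rcases R.uni i hi with ⟨h1, h2⟩ | ⟨h1, h2, h3⟩
      · refine Or.inl ⟨h1.up ?_ ?_, h2.up ?_ ?_⟩
        · intro h
          exact e (L_inj h).1
        · intro h
          exact e (L_inj h).1
        · intro h
          exact e (L_inj h).1
        · intro h
          exact e (L_inj h).1
      · exact Or.inr ⟨Or.inr h1, Or.inr h2, fun j hj he hu => h3 j hj he hu.of_up⟩
  · rintro i hi ⟨j, hj, he, hu⟩ b'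
    refine (R.gs i hi ⟨j, hj, he, hu.of_up⟩ b').up ?_ ?_
    · intro h
      exact L_ne_gv h.symm
    · intro h
      exact L_ne_gv h.symm

theorem act_step (H : HypE ex un E) {sk : (ℕ → Bool) → ℕ → Bool} (K : SkH ex un sk)
    (hdis : ∀ p ∈ D, p ∉ S) {x : ℕ → Bool} (R : Reg ex un D S (sk x)) (hc : Fr D S c)
    (hz : Fr D S z) (hne : c ≠ z) (ha : Act ex un D S (sk x) c)
    (hb : ¬ (Act ex un D S (sk x) z ∧ z.1 < c.1)) :
    Pos ex un E sk (insert z D) (insert c S) ∨ Pos ex un E sk (insert c D) (insert z S) := by
  set β := sk x with hβ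
  have hlow : ∀ k' < c.1, ex k' → Unt D S k' → z.1 = k' → 5 ≤ z.2 := by
    rintro k' hk' he hu rfl
    by_contra h
    exact hb ⟨Or.inl ⟨he, by omega, hu⟩, hk'⟩
  have hch : ∀ t ≤ c.1, z ∉ ch ex t := by
    rintro t ht ⟨g1, g2, g3⟩
    rcases R.fine t z.1 g2 g1 with h | h
    · rw [← g3] at h
      exact hz.2 h
    · have := hlow z.1 (by omega) g1 h rfl
      omega
  have hFu : ∀ t ≤ c.1, (c.2 < 5 → ∀ k < t, ex k → Unt D S k → c.1 = k → False) →
      Fine ex (insert z D) (insert c S) t := by
    intro t ht hcc
    refine (R.fine t).up fun k hk he hu => Or.inl ⟨hlow k (by omega) he hu, fun h => ?_⟩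
    by_contra h5
    exact hcc (by omega) k hk he hu h
  rcases ha with ⟨hk, hcc, hU⟩ | ⟨hk, hU, hcc⟩ | ⟨hk, hcc⟩ | ⟨hk, hcc, j, hj, hej, huj⟩
  · -- untouched level
    by_cases hzk : z.1 = c.1 ∧ z.2 < 5
    · obtain ⟨k, cc⟩ := c
      obtain ⟨i, zz⟩ := z
      simp only at hk hcc hU hzk hlow
      obtain ⟨rfl, hzz⟩ := hzk
      have hne' : cc ≠ zz := fun h => hne (by rw [h])
      rcases good_total cc zz hcc hzz hne' with ⟨rfl, h⟩ | ⟨rfl, h⟩ | h | h
      · left
        right
        rcases h with rfl | rfl
        · exact R.proper H K hk hU false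
        · exact R.proper H K hk hU true
      · right
        right
        rcases h with rfl | rfl
        · exact R.proper H K hk hU false
        · exact R.proper H K hk hU true
      · exact Or.inl (Or.inl (imp H hdis hk (R.fine i) hU hcc hz hlow fun _ => Or.inr h))
      · refine Or.inr (Or.inl (imp H hdis hk (R.fine i) hU hzz hc ?_ fun _ => Or.inr h))
        intro k' hk' _ _ h
        simp only at h
        omega
    · obtain ⟨k, cc⟩ := c
      simp only at hk hcc hU hzk hlow
      exact Or.inl (Or.inl (imp H hdis hk (R.fine k) hU hcc hz hlow fun h => Or.inl (by omega)))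
  · -- pending pair
    rcases R.lev c.1 hk with h | ⟨h1, h2, h3⟩
    · exact absurd h hU
    have hF : Fine ex (insert z D) (insert c S) c.1 :=
      hFu c.1 le_rfl fun _ k hk' _ _ h => by omega
    have base : AE ex E D S c.1 {L c.1 (!β c.1), (c.1, 1)} := by
      have hFr : Fr D S (L c.1 (!β c.1)) ∧ Fr D S (c.1, 1) := by
        rcases h3 with h3 | ⟨h3, h4⟩
        · exact h3
        · exfalso
          rcases hcc with hcc | hcc
          · rw [← hcc] at h3
            exact hc.2 h3
          · rw [← hcc] at h4
            exact hc.1 h4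
      refine ⟨_, H.e1q c.1 hk (!β c.1), ?_, ?_⟩
      · rintro p (hp | hp)
        · exact ch_notD hdis (R.fine _) p hp
        · rcases hp with rfl | rfl | rfl
          exacts [fun h => hdis _ h h1, hFr.1.1, hFr.2.1]
      · rintro p (hp | hp)
        · exact Or.inl hp
        · rcases hp with rfl | rfl | rfl
          exacts [Or.inr (Or.inl h1), Or.inr (Or.inr (Or.inl rfl)), Or.inr (Or.inr (Or.inr rfl))]
    have hlo : ∀ i, ¬ Low ex c.1 (c.1, i) := fun i h => lt_irrefl _ h.2
    have hFr : Fr D S (L c.1 (!β c.1)) ∧ Fr D S (c.1, 1) := by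
      rcases h3 with h3 | ⟨h3, h4⟩
      · exact h3
      · exfalso
        rcases hcc with hcc | hcc
        · rw [← hcc] at h3
          exact hc.2 h3
        · rw [← hcc] at h4
          exact hc.1 h4
    rcases hcc with hcc | hcc
    · by_cases e : z = (c.1, 1)
      · left
        right
        refine ⟨x, ?_⟩
        have := R.pend H hk hU
        rw [← hcc, ← e] at this
        exact this
      · left
        left
        refine ⟨c.1, hF, .c1 (c.1, 1) (hFr.2.up (Ne.symm e) ?_) (hlo 1) (by norm_num)
          (base.up ?_ (hch _ le_rfl) hz.2 ?_)⟩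
        · rw [hcc]
          intro h
          have := congrArg Prod.snd h
          have h4 := L_ge (L c.1 (!β c.1)).1 (!β c.1)
          simp only [L_fst] at this h4
          omega
        · rintro p (rfl | rfl)
          · exact Or.inl hcc.symm
          · exact Or.inr rfl
        · rintro (h | h)
          · exact hne (hcc.trans h.symm)
          · exact e h
    · by_cases e : z = L c.1 (!β c.1)
      · right
        right
        refine ⟨x, ?_⟩
        have := R.pend H hk hU
        rw [← hcc, ← e] at this
        exact this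
      · left
        left
        refine ⟨c.1, hF, .c1 (L c.1 (!β c.1)) (hFr.1.up (Ne.symm e) ?_) (hlo _) (L_lt _ _)
          (base.up ?_ (hch _ le_rfl) hz.2 ?_)⟩
        · rw [hcc]
          intro h
          have := congrArg Prod.snd h
          have h4 := L_ge c.1 (!β c.1)
          simp only at this
          omega
        · rintro p (rfl | rfl)
          · exact Or.inr rfl
          · exact Or.inl hcc.symm
        · rintro (h | h)
          · exact e h
          · exact hne (hcc.trans h.symm)
  · -- literals of universal variables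
    obtain ⟨b, hcb⟩ : ∃ b, c = L c.1 b := by
      rcases hcc with h | h
      · exact ⟨false, Prod.ext rfl h⟩
      · exact ⟨true, Prod.ext rfl h⟩
    have hFr : ∀ b', Fr D S (L c.1 b') := by
      rcases R.uni c.1 hk with ⟨h1, h2⟩ | ⟨h1, h2, _⟩
      · intro b'
        cases b'
        · exact h1
        · exact h2
      · exfalso
        by_cases e : b = β c.1
        · rw [← e, ← hcb] at h1
          exact hc.1 h1
        · have : b = !β c.1 := by
            revert e
            cases b <;> cases β c.1 <;> simp
          rw [← this, ← hcb] at h2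
          exact hc.2 h2
    have hF : Fine ex (insert z D) (insert c S) c.1 :=
      hFu c.1 le_rfl fun _ k hk' _ _ h => by omega
    have hb2 : L c.1 b ≠ L c.1 (!b) := fun h => by
      have := (L_inj h).2
      revert this
      cases b <;> simp
    by_cases e : z = L c.1 (!b)
    · by_cases hun : ∃ j < c.1, ex j ∧ Unt D S j
      · obtain ⟨j, hj, hej, huj⟩ := hun
        left
        left
        refine ⟨j, hFu j hj.le fun _ k hk' _ _ h => by omega, .ch hej (huj.up ?_ ?_) (gv c.1 b)
          ((R.gs c.1 hk ⟨j, hj, hej, huj⟩ b).up ?_ ?_) ?_ ?_ ?_ ?_⟩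
        · rw [e, L_fst]
          intro h
          omega
        · intro h
          omega
        · rw [e]
          exact L_ne_gv.symm
        · rw [hcb]
          exact L_ne_gv.symm
        · intro h
          have := h.2
          rw [gv_fst] at this
          omega
        · rw [gv_fst]
          omega
        · have := gv_lt c.1 b
          omega
        · intro b''
          have hUj := huj
          have base : AE ex E D S j {L j b'', (j, 1), L c.1 b, gv c.1 b} := by
            refine ⟨_, H.e3 j c.1 hej hk hj b'' b, ?_, ?_⟩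
            · rintro p (hp | hp)
              · exact ch_notD hdis (R.fine _) p hp
              · rcases hp with rfl | rfl | rfl | rfl
                exacts [(hUj _ (L_lt j b'')).1, (hUj 1 (by norm_num)).1, (hFr b).1,
                  (R.gs c.1 hk ⟨j, hj, hej, huj⟩ b).1]
            · rintro p (hp | hp)
              · exact Or.inl hp
              · exact Or.inr (Or.inr hp)
          refine base.up ?_ (hch j hj.le) hz.2 ?_
          · rintro p (rfl | rfl | rfl | rfl)
            · exact Or.inr (Or.inl rfl)
            · exact Or.inr (Or.inr (Or.inl rfl))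
            · exact Or.inl hcb.symm
            · exact Or.inr (Or.inr (Or.inr rfl))
          · rw [e]
            rintro (h | h | h | h)
            · have := (L_inj h).1
              omega
            · have := congrArg Prod.fst h
              rw [L_fst] at this
              simp only at this
              omega
            · exact hb2 h.symm
            · exact L_ne_gv h
      · push Not at hun
        have hR := R.lit H hk (fun j hj he => hun j hj he)
        by_cases eb : b = !β c.1
        · left
          right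
          refine ⟨x, ?_⟩
          rw [← eb, ← hcb] at hR
          have e2 : L c.1 (β c.1) = z := by
            rw [e, eb]
            simp
          rw [e2] at hR
          exact hR
        · right
          right
          refine ⟨x, ?_⟩
          have eb2 : b = β c.1 := by
            revert eb
            cases b <;> cases β c.1 <;> simp
          rw [← eb2, ← hcb, ← e] at hR
          exact hR
    · left
      left
      refine ⟨c.1, hF, .c1 (L c.1 (!b)) ((hFr _).up (Ne.symm e) ?_) (fun h => lt_irrefl _ h.2)
        (L_lt _ _) ?_⟩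
      · rw [hcb, L_fst]
        exact hb2.symm
      · have base : AE ex E D S c.1 {L c.1 false, L c.1 true} := by
          refine ⟨_, H.e4 c.1 hk, ?_, ?_⟩
          · rintro p (hp | hp)
            · exact ch_notD hdis (R.fine _) p hp
            · rcases hp with rfl | rfl
              exacts [(hFr _).1, (hFr _).1]
          · rintro p (hp | hp)
            · exact Or.inl hp
            · exact Or.inr (Or.inr hp)
        refine base.up ?_ (hch _ le_rfl) hz.2 ?_
        · rintro p (rfl | rfl)
          · cases b
            · exact Or.inl hcb.symm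
            · exact Or.inr rfl
          · cases b
            · exact Or.inr rfl
            · exact Or.inl hcb.symm
        · rintro (h | h)
          · cases b
            · exact hne (hcb.trans h.symm)
            · exact e h
          · cases b
            · exact e h
            · exact hne (hcb.trans h.symm)
  · -- partners of literals
    obtain ⟨b, hcb⟩ : ∃ b, c = gv c.1 b := by
      rcases hcc with h | h
      · exact ⟨false, Prod.ext rfl h⟩
      · exact ⟨true, Prod.ext rfl h⟩
    have hFr : ∀ b', Fr D S (L c.1 b') := by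
      rcases R.uni c.1 hk with ⟨h1, h2⟩ | ⟨h1, h2, h3⟩
      · intro b'
        cases b'
        · exact h1
        · exact h2
      · exact absurd huj (h3 j hj hej)
    by_cases e : ∃ b', z = L c.1 b'
    · obtain ⟨b', e⟩ := e
      -- the other orientation: a literal without its partner
      right
      left
      have hz1 : z.1 = c.1 := by rw [e, L_fst]
      have hF : Fine ex (insert c D) (insert z S) c.1 := by
        refine (R.fine _).up fun k hk' _ _ => Or.inl ⟨fun h => by omega, fun h => by omega⟩
      have hcch : c ∉ ch ex c.1 := fun h => lt_irrefl _ h.2.1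
      have hb2 : L c.1 b' ≠ L c.1 (!b') := fun h => by
        have := (L_inj h).2
        revert this
        cases b' <;> simp
      refine ⟨c.1, hF, .c1 (L c.1 (!b')) ((hFr _).up ?_ ?_) (fun h => lt_irrefl _ h.2)
        (L_lt _ _) ?_⟩
      · rw [hcb]
        exact L_ne_gv
      · rw [e]
        exact hb2.symm
      · have base : AE ex E D S c.1 {L c.1 false, L c.1 true} := by
          refine ⟨_, H.e4 c.1 hk, ?_, ?_⟩
          · rintro p (hp | hp)
            · exact ch_notD hdis (R.fine _) p hp
            · rcases hp with rfl | rfl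
              exacts [(hFr _).1, (hFr _).1]
          · rintro p (hp | hp)
            · exact Or.inl hp
            · exact Or.inr (Or.inr hp)
        refine base.up ?_ hcch hc.2 ?_
        · rintro p (rfl | rfl)
          · cases b'
            · exact Or.inl e.symm
            · exact Or.inr rfl
          · cases b'
            · exact Or.inr rfl
            · exact Or.inl e.symm
        · rw [hcb]
          rintro (h | h)
          · exact L_ne_gv h.symm
          · exact L_ne_gv h.symm
    · left
      left
      have hzL : ∀ b', L c.1 b' ≠ z := fun b' h => e ⟨b', h.symm⟩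
      have hcL : L c.1 b ≠ c := by
        rw [hcb]
        exact L_ne_gv
      refine ⟨j, hFu j hj.le fun _ k hk' _ _ h => by omega, .ch hej (huj.up ?_ ?_) (L c.1 b)
        ((hFr b).up (hzL b) hcL) ?_ ?_ (L_lt _ _) ?_⟩
      · intro h
        exact hlow j hj hej huj h
      · intro h
        omega
      · intro h
        have := h.2
        rw [L_fst] at this
        omega
      · rw [L_fst]
        omega
      · intro b''
        have base : AE ex E D S j {L j b'', (j, 1), L c.1 b, gv c.1 b} := by
          refine ⟨_, H.e3 j c.1 hej hk hj b'' b, ?_, ?_⟩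
          · rintro p (hp | hp)
            · exact ch_notD hdis (R.fine _) p hp
            · rcases hp with rfl | rfl | rfl | rfl
              exacts [(huj _ (L_lt j b'')).1, (huj 1 (by norm_num)).1, (hFr b).1,
                (R.gs c.1 hk ⟨j, hj, hej, huj⟩ b).1]
          · rintro p (hp | hp)
            · exact Or.inl hp
            · exact Or.inr (Or.inr hp)
        refine base.up ?_ (hch j hj.le) hz.2 ?_
        · rintro p (rfl | rfl | rfl | rfl)
          · exact Or.inr (Or.inl rfl)
          · exact Or.inr (Or.inr (Or.inl rfl))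
          · exact Or.inr (Or.inr (Or.inr rfl))
          · exact Or.inl hcb.symm
        · rintro (h | h | h | h)
          · have h1 : z.1 = j := by rw [h, L_fst]
            have h2 := hlow j hj hej huj h1
            rw [h] at h2
            have := L_lt j b''
            omega
          · have h1 : z.1 = j := by rw [h]
            have h2 := hlow j hj hej huj h1
            rw [h] at h2
            simp at h2
          · exact hzL b h.symm
          · exact hne (hcb.trans h.symm)

theorem pos_step (H : HypE ex un E) {sk : (ℕ → Bool) → ℕ → Bool} (K : SkH ex un sk)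
    (hdis : ∀ p ∈ D, p ∉ S) (hP : Pos ex un E sk D S) (hs : Fr D S s) (hz : Fr D S z)
    (hne : s ≠ z) :
    Pos ex un E sk (insert z D) (insert s S) ∨ Pos ex un E sk (insert s D) (insert z S) := by
  rcases hP with hB | ⟨x, R⟩
  · rcases broken_step H hdis hB hs hz hne with h | h
    · exact Or.inl (Or.inl h)
    · exact Or.inr (Or.inl h)
  · by_cases h1 : Act ex un D S (sk x) s
    · by_cases h2 : Act ex un D S (sk x) z ∧ z.1 < s.1
      · exact (act_step H K hdis R hz hs hne.symm h2.1 fun h => by omega).symm
      · exact act_step H K hdis R hs hz hne h1 h2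
    · by_cases h2 : Act ex un D S (sk x) z
      · exact (act_step H K hdis R hz hs hne.symm h2 fun h => h1 h.1).symm
      · exact Or.inl (Or.inr ⟨x, R.inact h1 h2⟩)

theorem pos_dummy {sk : (ℕ → Bool) → ℕ → Bool} (hP : Pos ex un E sk D S) (hz : Fr D S z)
    (h1 : 5 ≤ c.2) (h2 : 5 ≤ z.2) : Pos ex un E sk (insert z D) (insert c S) := by
  rcases hP with hB | ⟨x, R⟩
  · exact Or.inl (broken_dummy hB hz h1 h2)
  · refine Or.inr ⟨x, R.inact ?_ ?_⟩
    · rintro (⟨_, h, _⟩ | ⟨_, _, h | h⟩ | ⟨_, h⟩ | ⟨_, h, _⟩)
      · omega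
      · have := L_lt c.1 (!sk x c.1)
        rw [← h] at this
        omega
      · rw [h] at h1
        simp at h1
      · omega
      · omega
    · rintro (⟨_, h, _⟩ | ⟨_, _, h | h⟩ | ⟨_, h⟩ | ⟨_, h, _⟩)
      · omega
      · have := L_lt z.1 (!sk x z.1)
        rw [← h] at this
        omega
      · rw [h] at h2
        simp at h2
      · omega
      · omega

theorem pos_alive {sk : (ℕ → Bool) → ℕ → Bool} (hdis : ∀ p ∈ D, p ∉ S)
    (hcl : ∀ x, ∃ X, E X ∧ ∀ p ∈ X, (ex p.1 ∧ p.2 = 0) ∨ ∃ i, (ex i ∨ un i) ∧ p = L i (!sk x i))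
    (hP : Pos ex un E sk D S) : ∃ X, E X ∧ ∀ p ∈ X, p ∉ D := by
  rcases hP with hB | ⟨x, R⟩
  · exact broken_alive hB
  · obtain ⟨X, hX, h⟩ := hcl x
    refine ⟨X, hX, fun p hp hD => ?_⟩
    rcases h p hp with ⟨h1, h2⟩ | ⟨i, h1 | h1, rfl⟩
    · rcases R.lev p.1 h1 with h3 | ⟨h3, _⟩
      · have := (h3 0 (by norm_num)).1
        rw [← h2] at this
        exact this hD
      · rw [← h2] at h3
        exact hdis _ hD h3
    · rcases R.lev i h1 with h3 | ⟨_, _, ⟨h3, _⟩ | ⟨h3, _⟩⟩
      · exact (h3 _ (L_lt i _)).1 hD
      · exact h3.1 hD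
      · exact hdis _ hD h3
    · rcases R.uni i h1 with ⟨h3, h4⟩ | ⟨_, h3, _⟩
      · cases hb : !sk x i
        · rw [hb] at hD
          exact h3.1 hD
        · rw [hb] at hD
          exact h4.1 hD
      · exact hdis _ hD h3

end Pool.Agent.Q227.WD
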