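import Pool.Agent.Q227.WD.Defs
import Pool.Agent.Q227.WD.Reg

/-!
# The domination game on labels, boxes and pairings
-/

namespace Pool.Agent.Q227.WD

/-- The game on the labels in `U` with the adjacency `A`. -/
inductive LW (U : Set Pt) (A : Pt → Pt → Prop) : Set Pt → Set Pt → Prop
  | done {D S : Set Pt} (h : ∀ v ∈ U, v ∈ D ∨ ∃ u ∈ D, A u v) : LW U A D S
  | offer {D S : Set Pt} (u v : Pt) (u1 : u ∈ U) (v1 : v ∈ U) (hu : u ∉ D ∪ S) (hv : v ∉ D ∪ S)
      (huv : u ≠ v) (h1 : LW U A (insert v D) (insert u S)) (h2 : LW U A (insert u D) (insert v S)) :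
      LW U A D S
  | last {D S : Set Pt} (u : Pt) (hu : U \ (D ∪ S) = {u}) (h : LW U A D (insert u S)) : LW U A D S

theorem lw_of_domWins {V : Type*} {G : SimpleGraph V} {U : Set Pt} {A : Pt → Pt → Prop}
    (lab : V → Pt) (hinj : Function.Injective lab) (hU : ∀ p, p ∈ U ↔ ∃ v, lab v = p)
    (hA : ∀ u v, G.Adj u v ↔ A (lab u) (lab v)) {D S : Set V} (h : DomWins G D S) :
    LW U A (lab '' D) (lab '' S) := by
  have hm : ∀ (X : Set V) (v : V), lab v ∈ lab '' X ↔ v ∈ X := fun X v => hinj.mem_set_image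
  induction h with
  | @done D S h =>
    refine LW.done fun p hp => ?_
    obtain ⟨v, rfl⟩ := (hU p).1 hp
    rcases h v with h | ⟨u, hu, h⟩
    · exact Or.inl ((hm _ _).2 h)
    · exact Or.inr ⟨lab u, (hm _ _).2 hu, (hA _ _).1 h⟩
  | @offer D S u v hu hv huv h1 h2 ih1 ih2 =>
    refine LW.offer (lab u) (lab v) ((hU _).2 ⟨u, rfl⟩) ((hU _).2 ⟨v, rfl⟩) ?_ ?_
      (fun e => huv (hinj e)) ?_ ?_
    · simpa [hm] using hu
    · simpa [hm] using hv
    · rw [Set.image_insert_eq, Set.image_insert_eq] at ih1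
      exact ih1
    · rw [Set.image_insert_eq, Set.image_insert_eq] at ih2
      exact ih2
  | @last D S u hu h ih =>
    refine LW.last (lab u) ?_ ?_
    · ext p
      simp only [Set.mem_sdiff, Set.mem_union, Set.mem_singleton_iff]
      constructor
      · rintro ⟨hp, h1⟩
        obtain ⟨v, rfl⟩ := (hU p).1 hp
        have : v ∈ (D ∪ S)ᶜ := by
          rw [hm, hm] at h1
          exact h1
        rw [hu] at this
        rw [this]
      · rintro rfl
        refine ⟨(hU _).2 ⟨u, rfl⟩, ?_⟩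
        have : u ∈ (D ∪ S)ᶜ := by
          rw [hu]
          rfl
        rw [hm, hm]
        exact this
    · rw [Set.image_insert_eq] at ih
      exact ih

theorem domWins_of_lw {V : Type*} {G : SimpleGraph V} {U : Set Pt} {A : Pt → Pt → Prop}
    (lab : V → Pt) (hinj : Function.Injective lab) (hU : ∀ p, p ∈ U ↔ ∃ v, lab v = p)
    (hA : ∀ u v, G.Adj u v ↔ A (lab u) (lab v)) {D' S' : Set Pt} (h : LW U A D' S') :
    ∀ D S : Set V, D' = lab '' D → S' = lab '' S → DomWins G D S := by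
  have hm : ∀ (X : Set V) (v : V), lab v ∈ lab '' X ↔ v ∈ X := fun X v => hinj.mem_set_image
  induction h with
  | @done D' S' h =>
    rintro D S rfl rfl
    refine DomWins.done fun v => ?_
    rcases h (lab v) ((hU _).2 ⟨v, rfl⟩) with h | ⟨u, ⟨w, hw, rfl⟩, h⟩
    · exact Or.inl ((hm _ _).1 h)
    · exact Or.inr ⟨w, hw, (hA _ _).2 h⟩
  | @offer D' S' u v u1 v1 hu hv huv h1 h2 ih1 ih2 =>
    rintro D S rfl rfl
    obtain ⟨u, rfl⟩ := (hU u).1 u1
    obtain ⟨v, rfl⟩ := (hU v).1 v1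
    refine DomWins.offer u v ?_ ?_ (fun e => huv (by rw [e])) ?_ ?_
    · simpa [hm] using hu
    · simpa [hm] using hv
    · exact ih1 _ _ (by rw [Set.image_insert_eq]) (by rw [Set.image_insert_eq])
    · exact ih2 _ _ (by rw [Set.image_insert_eq]) (by rw [Set.image_insert_eq])
  | @last D' S' u hu h ih =>
    rintro D S rfl rfl
    have hu' : u ∈ U \ (lab '' D ∪ lab '' S) := by
      rw [hu]
      rfl
    obtain ⟨u, rfl⟩ := (hU u).1 hu'.1
    refine DomWins.last u ?_ (ih _ _ rfl (by rw [Set.image_insert_eq]))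
    ext v
    have e := Set.ext_iff.1 hu (lab v)
    simp only [Set.mem_sdiff, Set.mem_union, Set.mem_singleton_iff, hm] at e
    simp only [Set.mem_compl_iff, Set.mem_union, Set.mem_singleton_iff]
    constructor
    · intro hv
      exact hinj (e.1 ⟨(hU _).2 ⟨v, rfl⟩, hv⟩)
    · rintro rfl
      exact (e.2 rfl).2

theorem LW.dom {U : Set Pt} {A : Pt → Pt → Prop} {D S : Set Pt} (h : LW U A D S)
    (hU : ∀ p ∈ U, p ∈ D ∪ S) : ∀ v ∈ U, v ∈ D ∨ ∃ u ∈ D, A u v := by
  cases h with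
  | done h => exact h
  | offer u v u1 v1 hu hv huv h1 h2 => exact absurd (hU u u1) hu
  | last u hu h =>
    have hu' : u ∈ U \ (D ∪ S) := by
      rw [hu]
      rfl
    exact absurd (hU u hu'.1) hu'.2

/-- Dominator offers the pairs of a list. -/
theorem lw_pairs {U : Set Pt} {A : Pt → Pt → Prop} : ∀ (M : List (Pt × Pt)) (D S : Set Pt),
    (M.flatMap fun p => [p.1, p.2]).Nodup →
    (∀ x ∈ M.flatMap fun p => [p.1, p.2], x ∈ U ∧ x ∉ D ∪ S) →
    (∀ v ∈ U, (v ∈ D ∨ ∃ u ∈ D, A u v) ∨ ∃ p ∈ M, (p.1 = v ∨ A p.1 v) ∧ (p.2 = v ∨ A p.2 v)) →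
    LW U A D S
  | [], D, S, _, _, h => LW.done fun v hv => (h v hv).resolve_right (by simp)
  | p :: M, D, S, hn, hf, h => by
    rw [List.flatMap_cons] at hn hf
    have hn1 := (List.nodup_append.1 hn).1
    have hn2 := (List.nodup_append.1 hn).2.1
    have hn3 := (List.nodup_append.1 hn).2.2
    have hne : p.1 ≠ p.2 := by simpa using hn1
    have f1 := hf p.1 (by simp)
    have f2 := hf p.2 (by simp)
    have key : ∀ a b : Pt, (a = p.1 ∧ b = p.2) ∨ (a = p.2 ∧ b = p.1) →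
        LW U A (insert a D) (insert b S) := by
      intro a b hab
      refine lw_pairs M _ _ hn2 ?_ ?_
      · intro x hx
        have h1 := hf x (List.mem_append_right _ hx)
        have h2 := hn3 p.1 (by simp) x hx
        have h3 := hn3 p.2 (by simp) x hx
        refine ⟨h1.1, ?_⟩
        have h4 := h1.2
        simp only [Set.mem_union, Set.mem_insert_iff, not_or] at h4 ⊢
        rcases hab with ⟨rfl, rfl⟩ | ⟨rfl, rfl⟩
        · exact ⟨⟨h2.symm, h4.1⟩, h3.symm, h4.2⟩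
        · exact ⟨⟨h3.symm, h4.1⟩, h2.symm, h4.2⟩
      · intro v hv
        rcases h v hv with (h1 | ⟨u, hu, h1⟩) | ⟨q, hq, h1, h2⟩
        · exact Or.inl (Or.inl (Or.inr h1))
        · exact Or.inl (Or.inr ⟨u, Or.inr hu, h1⟩)
        · rcases List.mem_cons.1 hq with rfl | hq
          · left
            rcases hab with ⟨rfl, rfl⟩ | ⟨rfl, rfl⟩
            · rcases h1 with h1 | h1
              · exact Or.inl (Or.inl h1.symm)
              · exact Or.inr ⟨_, Or.inl rfl, h1⟩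
            · rcases h2 with h2 | h2
              · exact Or.inl (Or.inl h2.symm)
              · exact Or.inr ⟨_, Or.inl rfl, h2⟩
          · exact Or.inr ⟨q, hq, h1, h2⟩
    exact LW.offer p.1 p.2 f1.1 f2.1 f1.2 f2.2 hne (key _ _ (Or.inr ⟨rfl, rfl⟩))
      (key _ _ (Or.inl ⟨rfl, rfl⟩))

/-! ### Boxes -/

/-- claimed copies -/
noncomputable def cD (t : ℕ) (D : Set Pt) (e : ℕ) : ℕ := {k | k < t ∧ ((e, 5 + k) : Pt) ∈ D}.ncard

/-- claimed vertices -/
noncomputable def cM (n : ℕ) (D S : Set Pt) : ℕ :=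
  {p : Pt | (p.1 < n ∧ p.2 < 5) ∧ (p ∈ D ∨ p ∈ S)}.ncard

/-- secured boxes -/
def Sec (t : ℕ) (S : Set Pt) (e : ℕ) : Prop := ∃ k < t, ((e, 5 + k) : Pt) ∈ S

/-- the number of secured boxes -/
noncomputable def cS (m t : ℕ) (S : Set Pt) : ℕ := {e | e < m ∧ Sec t S e}.ncard

/-- the invariant for the boxes -/
def Box (n m t : ℕ) (D S : Set Pt) : Prop :=
  ∀ e < m, Sec t S e ∨ cD t D e ≤ cM n D S + cS m t S

theorem box_zero (n m t : ℕ) : Box n m t ∅ ∅ := by
  intro e _
  right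
  simp [cD]

theorem fin_lt (t : ℕ) (P : ℕ → Prop) : {k | k < t ∧ P k}.Finite :=
  (Set.finite_lt_nat t).subset fun _ h => h.1

theorem fin_prod (n : ℕ) (P : Pt → Prop) : {p : Pt | (p.1 < n ∧ p.2 < 5) ∧ P p}.Finite := by
  refine (Finset.finite_toSet (Finset.range n ×ˢ Finset.range 5)).subset fun p h => ?_
  rw [Finset.mem_coe, Finset.mem_product, Finset.mem_range, Finset.mem_range]
  exact h.1

theorem ncard_lt_le (t : ℕ) (P : ℕ → Prop) : {k | k < t ∧ P k}.ncard ≤ t := by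
  have h := Set.ncard_le_ncard (s := {k | k < t ∧ P k}) (t := {k | k < t}) (fun _ h => h.1)
    (Set.finite_lt_nat t)
  refine h.trans ?_
  have e : {k : ℕ | k < t} = (Finset.range t : Set ℕ) := by
    ext
    simp
  rw [e, Set.ncard_coe_finset, Finset.card_range]

theorem ncard_prod_le (n : ℕ) (P : Pt → Prop) :
    {p : Pt | (p.1 < n ∧ p.2 < 5) ∧ P p}.ncard ≤ n * 5 := by
  have h := Set.ncard_le_ncard (s := {p : Pt | (p.1 < n ∧ p.2 < 5) ∧ P p})
    (t := (Finset.range n ×ˢ Finset.range 5 : Finset Pt)) (fun p h => by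
      rw [Finset.mem_coe, Finset.mem_product, Finset.mem_range, Finset.mem_range]
      exact h.1) (Finset.finite_toSet _)
  refine h.trans ?_
  rw [Set.ncard_coe_finset]
  simp

theorem box_free {n m t : ℕ} {D S : Set Pt} (hdis : ∀ p ∈ D, p ∉ S) (hB : Box n m t D S)
    (ht : 5 * n + m < t) {e : ℕ} (he : e < m) : ∃ k < t, ((e, 5 + k) : Pt) ∉ D := by
  rcases hB e he with ⟨k, hk, h⟩ | h
  · exact ⟨k, hk, fun h1 => hdis _ h1 h⟩
  · by_contra hc
    push Not at hc
    have h1 : cD t D e = t := by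
      unfold cD
      have e1 : {k | k < t ∧ ((e, 5 + k) : Pt) ∈ D} = (Finset.range t : Set ℕ) := by
        ext k
        simp only [Set.mem_setOf_eq, Finset.coe_range, Set.mem_Iio]
        exact ⟨fun h => h.1, fun h => ⟨h, hc k h⟩⟩
      rw [e1, Set.ncard_coe_finset, Finset.card_range]
    have h2 : cM n D S ≤ n * 5 := ncard_prod_le n _
    have h3 : cS m t S ≤ m := ncard_lt_le m _
    omega

theorem box_step {n m t : ℕ} {D S : Set Pt} {c z : Pt} (hB : Box n m t D S)
    (hc : c ∉ D ∪ S) (hc1 : (c.1 < n ∧ c.2 < 5) ∨ ∃ e k, e < m ∧ k < t ∧ c = (e, 5 + k))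
    (hcond : c.2 < 5 ∨ z.2 < 5 ∨ ¬ Sec t S c.1 ∨ Sec t S z.1) :
    Box n m t (insert z D) (insert c S) := by
  intro e he
  by_cases hs : Sec t (insert c S) e
  · exact Or.inl hs
  right
  have hs0 : ¬ Sec t S e := fun ⟨k, hk, h⟩ => hs ⟨k, hk, Or.inr h⟩
  have h0 := (hB e he).resolve_left hs0
  have hM : cM n D S ≤ cM n (insert z D) (insert c S) :=
    Set.ncard_le_ncard (fun p hp => ⟨hp.1, hp.2.imp Or.inr Or.inr⟩) (fin_prod n _)
  have hS : cS m t S ≤ cS m t (insert c S) := by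
    refine Set.ncard_le_ncard ?_ (fin_lt m _)
    rintro p ⟨h1, k, hk, h2⟩
    exact ⟨h1, k, hk, Or.inr h2⟩
  by_cases hz : ∃ k, z = (e, 5 + k)
  · obtain ⟨k0, rfl⟩ := hz
    have hD : cD t (insert (e, 5 + k0) D) e ≤ cD t D e + 1 := by
      unfold cD
      have : {k | k < t ∧ ((e, 5 + k) : Pt) ∈ insert ((e, 5 + k0) : Pt) D} ⊆
          insert k0 {k | k < t ∧ ((e, 5 + k) : Pt) ∈ D} := by
        rintro k ⟨hk, h | h⟩
        · left
          simp only [Prod.mk.injEq, true_and] at h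
          omega
        · exact Or.inr ⟨hk, h⟩
      exact (Set.ncard_le_ncard this ((fin_lt t _).insert _)).trans (Set.ncard_insert_le _ _)
    rcases hc1 with ⟨h1, h2⟩ | ⟨e', k', h1, h2, rfl⟩
    · have hM1 : cM n D S < cM n (insert (e, 5 + k0) D) (insert c S) := by
        refine Set.ncard_lt_ncard ⟨fun p hp => ⟨hp.1, hp.2.imp Or.inr Or.inr⟩, fun hsub => ?_⟩
          (fin_prod n _)
        exact hc (hsub (⟨⟨h1, h2⟩, Or.inr (Or.inl rfl)⟩ :
          c ∈ {p : Pt | (p.1 < n ∧ p.2 < 5) ∧ (p ∈ insert (e, 5 + k0) D ∨ p ∈ insert c S)})).2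
      omega
    · have hns : ¬ Sec t S e' := by
        rcases hcond with h | h | h | h
        · simp only at h
          omega
        · simp only at h
          omega
        · exact h
        · exact absurd h hs0
      have hS1 : cS m t S < cS m t (insert (e', 5 + k') S) := by
        refine Set.ncard_lt_ncard ⟨?_, fun hsub => ?_⟩ (fin_lt m _)
        · rintro p ⟨h1, k, hk, h2⟩
          exact ⟨h1, k, hk, Or.inr h2⟩
        · exact hns (hsub (⟨h1, k', h2, Or.inl rfl⟩ :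
            e' ∈ {e | e < m ∧ Sec t (insert (e', 5 + k') S) e})).2
      omega
  · have hD : cD t (insert z D) e = cD t D e := by
      unfold cD
      congr 1
      ext k
      constructor
      · rintro ⟨h1, h | h⟩
        · exact absurd ⟨k, h.symm⟩ hz
        · exact ⟨h1, h⟩
      · rintro ⟨h1, h⟩
        exact ⟨h1, Or.inr h⟩
    omega

end Pool.Agent.Q227.WD
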