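import Pool.Agent.H656R2.AK.AKIn
import Pool.Agent.Q227.WD.Defs

/-!
# The Waiter-Client domination game is in PSPACE
-/

namespace Pool.Agent.Q227.WD

open Pool.Agent.NPC Pool.Agent.H623R2.PS Pool.Agent.H656R2.AK

set_option linter.unusedSectionVars false

/-- positions: matrix, unclaimed vertices, Dominator's vertices, offer, alive -/
abbrev Ps := List (List Bool) × List ℕ × List ℕ × List ℕ × Bool

/-- the test for domination -/
def domT (M : List (List Bool)) (D : List ℕ) : Bool :=
  (List.range M.length).all fun v => decide (v ∈ D) || D.any fun u => ent M u v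

/-- the moves of Waiter -/
def wMoves (b : Ps) : List Ps :=
  if domT b.1 b.2.2.1 = true then [(b.1, [], b.2.2.1, [], false)]
  else ((b.2.1 ×ˢ b.2.1).filter fun p => !decide (p.1 = p.2)).map fun p =>
    (b.1, b.2.1.filter (fun x => !decide (x = p.1) && !decide (x = p.2)), b.2.2.1, [p.1, p.2], true)

/-- the moves of Client -/
def cMoves (b : Ps) : List Ps :=
  b.2.2.2.1.map fun x => (b.1, b.2.1, x :: b.2.2.1, [], true)

/-- the moves -/
def moves (b : Ps) : List Ps :=
  if b.2.2.2.2 = true then (if b.2.2.2.1.isEmpty = true then wMoves b else cMoves b) else []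

theorem mem_wMoves {b b' : Ps} (h : ¬ domT b.1 b.2.2.1 = true) : b' ∈ wMoves b ↔
    ∃ u ∈ b.2.1, ∃ v ∈ b.2.1, u ≠ v ∧
      b' = (b.1, b.2.1.filter (fun x => !decide (x = u) && !decide (x = v)), b.2.2.1, [u, v], true) := by
  unfold wMoves
  rw [if_neg h, List.mem_map]
  constructor
  · rintro ⟨⟨u, v⟩, h, rfl⟩
    rw [List.mem_filter, mem_prod] at h
    exact ⟨u, h.1.1, v, h.1.2, by simpa using h.2, rfl⟩
  · rintro ⟨u, hu, v, hv, h, rfl⟩
    exact ⟨(u, v), List.mem_filter.2 ⟨mem_prod.2 ⟨hu, hv⟩, by simpa using h⟩, rfl⟩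

theorem poly_domT : NPC.Poly (fun p : List (List Bool) × List ℕ => domT p.1 p.2) := by
  have h : UPoly (fun p : List (List Bool) × List ℕ => p.1.length) := UPoly.length (by fun_prop)
  have h1 := h.range
  have h2 : NPC.Poly (fun q : (List (List Bool) × List ℕ) × ℕ => q.1.2.any fun u => ent q.1.1 u q.2) :=
    NPC.Poly.any (l := fun q : (List (List Bool) × List ℕ) × ℕ => q.1.2)
      (p := fun q u => ent q.1.1 u q.2) (by fun_prop) (by fun_prop)
  unfold domT
  exact NPC.Poly.all (l := fun p : List (List Bool) × List ℕ => List.range p.1.length)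
    (p := fun p v => decide (v ∈ p.2) || p.2.any fun u => ent p.1 u v) h1
    (NPC.Poly.or (by fun_prop) h2)

theorem poly_wMoves : NPC.Poly wMoves := by
  unfold wMoves
  refine NPC.Poly.ite ?_ ?_ ?_
  · exact (poly_domT.comp (f := fun b : Ps => (b.1, b.2.2.1)) (by fun_prop)).congr fun b => by simp
  · fun_prop
  · have h1 : NPC.Poly (fun b : Ps => (b.2.1 ×ˢ b.2.1).filter fun p => !decide (p.1 = p.2)) :=
      NPC.Poly.filter (l := fun b : Ps => b.2.1 ×ˢ b.2.1)
        (p := fun _ p => !decide (p.1 = p.2)) (by fun_prop) (by fun_prop)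
    refine NPC.Poly.map (F := fun (b : Ps) (p : ℕ × ℕ) =>
      ((b.1, b.2.1.filter (fun x => !decide (x = p.1) && !decide (x = p.2)), b.2.2.1,
        [p.1, p.2], true) : Ps)) h1 ?_
    refine NPC.Poly.pair (by fun_prop) (NPC.Poly.pair ?_ (by fun_prop))
    exact NPC.Poly.filter (l := fun q : Ps × (ℕ × ℕ) => q.1.2.1)
      (p := fun q x => !decide (x = q.2.1) && !decide (x = q.2.2)) (by fun_prop) (by fun_prop)

theorem poly_cMoves : NPC.Poly cMoves := by
  unfold cMoves
  exact NPC.Poly.map (l := fun b : Ps => b.2.2.2.1)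
    (F := fun b x => ((b.1, b.2.1, x :: b.2.2.1, [], true) : Ps)) (by fun_prop) (by fun_prop)

theorem poly_moves : NPC.Poly moves := by
  unfold moves
  refine NPC.Poly.ite (by fun_prop) ?_ (NPC.Poly.const _)
  exact NPC.Poly.ite (by fun_prop) poly_wMoves poly_cMoves

theorem sz_filter_ne {u : ℕ} : ∀ {l : List ℕ}, u ∈ l →
    sz (l.filter fun x => !decide (x = u)) + sz u + 1 ≤ sz l
  | [], h => by simp at h
  | a :: l, h => by
    rw [List.filter_cons]
    by_cases ha : a = u
    · subst ha
      have := sz_filter_le' (fun x => !decide (x = a)) l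
      simp only [decide_true, Bool.not_true, Bool.false_eq_true, if_false, sz_list_cons]
      omega
    · have h1 : u ∈ l := by
        rcases List.mem_cons.1 h with h | h
        · exact absurd h.symm ha
        · exact h
      have := sz_filter_ne h1
      simp only [ha, decide_false, Bool.not_false, if_true, sz_list_cons]
      omega

theorem filter_two (u v : ℕ) (l : List ℕ) :
    l.filter (fun x => !decide (x = u) && !decide (x = v)) =
      (l.filter fun x => !decide (x = u)).filter fun x => !decide (x = v) := by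
  rw [List.filter_filter]
  refine List.filter_congr fun x _ => ?_
  rw [Bool.and_comm]

theorem sz_filter_two {u v : ℕ} {l : List ℕ} (hu : u ∈ l) (hv : v ∈ l) (huv : u ≠ v) :
    sz (l.filter fun x => !decide (x = u) && !decide (x = v)) + (sz u + sz v + 2) ≤ sz l := by
  rw [filter_two]
  have h1 := sz_filter_ne hu
  have h2 : v ∈ l.filter fun x => !decide (x = u) :=
    List.mem_filter.2 ⟨hv, by simpa using huv.symm⟩
  have h3 := sz_filter_ne h2
  omega

theorem length_filter_ne {u : ℕ} {l : List ℕ} (h : u ∈ l) :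
    (l.filter fun x => !decide (x = u)).length + 1 ≤ l.length := by
  have : (l.filter fun x => !decide (x = u)).length < l.length := by
    rw [List.length_filter_lt_length_iff_exists]
    exact ⟨u, h, by simp⟩
  omega

theorem length_filter_two {u v : ℕ} {l : List ℕ} (hu : u ∈ l) (hv : v ∈ l) (huv : u ≠ v) :
    (l.filter fun x => !decide (x = u) && !decide (x = v)).length + 2 ≤ l.length := by
  rw [filter_two]
  have h1 := length_filter_ne hu
  have h2 : v ∈ l.filter fun x => !decide (x = u) :=
    List.mem_filter.2 ⟨hv, by simpa using huv.symm⟩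
  have h3 := length_filter_ne h2
  omega

theorem sz_mem2 {x : ℕ} : ∀ {l : List ℕ}, x ∈ l → sz x + 2 ≤ sz l
  | [], h => by simp at h
  | a :: l, h => by
    rw [sz_list_cons]
    have h0 := sz_pos l
    rcases List.mem_cons.1 h with rfl | h
    · omega
    · have := sz_mem2 h
      omega

theorem sz_moves (b : Ps) : ∀ b' ∈ moves b, sz b' ≤ sz b := by
  obtain ⟨M, U, D, off, fl⟩ := b
  intro b' hb'
  unfold moves at hb'
  simp only at hb'
  split_ifs at hb' with h1 h2
  · subst h1
    rw [List.isEmpty_iff] at h2
    subst h2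
    by_cases hd : domT M D = true
    · unfold wMoves at hb'
      simp only at hb'
      rw [if_pos hd, List.mem_singleton] at hb'
      subst hb'
      simp only [sz_pair, sz_list_nil, sz_true, sz_false]
      have := sz_pos U
      omega
    · rw [mem_wMoves (b := (M, U, D, [], true)) hd] at hb'
      obtain ⟨u, hu, v, hv, huv, rfl⟩ := hb'
      simp only at hu hv
      simp only [sz_pair, sz_list_nil, sz_list_cons, sz_true]
      have := sz_filter_two hu hv huv
      omega
  · subst h1
    unfold cMoves at hb'
    simp only [List.mem_map] at hb'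
    obtain ⟨x, hx, rfl⟩ := hb'
    simp only [sz_pair, sz_list_nil, sz_list_cons, sz_true]
    have := sz_mem2 hx
    omega
  · simp at hb'

/-- the rank -/
def rank (b : Ps) : ℕ := 2 * b.2.1.length + b.2.2.2.1.length + b.2.2.2.2.toNat

theorem rank_moves (b : Ps) (n : ℕ) (h : b.2.1.length ≤ n ∧ b.2.2.2.1.length ≤ 2) :
    ∀ b' ∈ moves b, (b'.2.1.length ≤ n ∧ b'.2.2.2.1.length ≤ 2) ∧ rank b' < rank b := by
  obtain ⟨M, U, D, off, fl⟩ := b
  simp only at h
  intro b' hb'
  unfold moves at hb'
  simp only at hb'
  split_ifs at hb' with h1 h2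
  · subst h1
    rw [List.isEmpty_iff] at h2
    subst h2
    by_cases hd : domT M D = true
    · unfold wMoves at hb'
      simp only at hb'
      rw [if_pos hd, List.mem_singleton] at hb'
      subst hb'
      simp [rank]
    · rw [mem_wMoves (b := (M, U, D, [], true)) hd] at hb'
      obtain ⟨u, hu, v, hv, huv, rfl⟩ := hb'
      simp only at hu hv
      have := length_filter_two hu hv huv
      simp only [rank, List.length_cons, List.length_nil, Bool.toNat_true]
      omega
  · subst h1
    unfold cMoves at hb'
    simp only [List.mem_map] at hb'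
    obtain ⟨x, hx, rfl⟩ := hb'
    have : 0 < off.length := List.length_pos_of_mem hx
    simp only [rank, List.length_nil, Bool.toNat_true]
    omega
  · simp at hb'

theorem length_moves (b : Ps) (n : ℕ) (h : b.2.1.length ≤ n ∧ b.2.2.2.1.length ≤ 2) :
    (moves b).length ≤ n * n + 2 := by
  obtain ⟨M, U, D, off, fl⟩ := b
  simp only at h
  unfold moves
  simp only
  split_ifs with h1 h2
  · unfold wMoves
    split_ifs
    · simp
    · rw [List.length_map]
      refine (List.length_filter_le _ _).trans ?_
      rw [List.length_product]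
      have := Nat.mul_le_mul h.1 h.1
      simp only
      omega
  · unfold cMoves
    rw [List.length_map]
    simp only
    omega
  · simp

/-- the relation between positions -/
structure Rl (M : List (List Bool)) (b : Ps) (D S : Set (Fin M.length)) : Prop where
  m : b.1 = M
  o : b.2.2.2 = ([], true)
  u : ∀ i : Fin M.length, i.val ∈ b.2.1 ↔ i ∉ D ∪ S
  ul : ∀ x ∈ b.2.1, x < M.length
  d : ∀ i : Fin M.length, i.val ∈ b.2.2.1 ↔ i ∈ D
  dl : ∀ x ∈ b.2.2.1, x < M.length

theorem domT_iff {M : List (List Bool)} (h : valid M = true) {L : List ℕ}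
    {D : Set (Fin M.length)} (hd : ∀ i : Fin M.length, i.val ∈ L ↔ i ∈ D)
    (hl : ∀ x ∈ L, x < M.length) :
    domT M L = true ↔ ∀ v, v ∈ D ∨ ∃ u ∈ D, (grM M h).Adj u v := by
  unfold domT
  rw [List.all_eq_true]
  constructor
  · intro h1 v
    have h2 := h1 v.val (List.mem_range.2 v.isLt)
    rw [Bool.or_eq_true, decide_eq_true_eq, List.any_eq_true] at h2
    rcases h2 with h2 | ⟨u, hu, h3⟩
    · exact Or.inl ((hd v).1 h2)
    · exact Or.inr ⟨⟨u, hl u hu⟩, (hd _).1 hu, h3⟩
  · intro h1 v hv
    rw [List.mem_range] at hv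
    rw [Bool.or_eq_true, decide_eq_true_eq, List.any_eq_true]
    rcases h1 ⟨v, hv⟩ with h2 | ⟨u, hu, h3⟩
    · exact Or.inl ((hd ⟨v, hv⟩).2 h2)
    · exact Or.inr ⟨u.val, (hd u).2 hu, h3⟩

theorem Rl.next {M : List (List Bool)} {b : Ps} {D S : Set (Fin M.length)} (hR : Rl M b D S)
    {u v : Fin M.length} (hu : u ∉ D ∪ S) (hv : v ∉ D ∪ S) (huv : u ≠ v) :
    Rl M (M, b.2.1.filter (fun x => !decide (x = u.val) && !decide (x = v.val)),
      v.val :: b.2.2.1, [], true) (insert v D) (insert u S) := by
  refine ⟨rfl, rfl, ?_, ?_, ?_, ?_⟩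
  · intro i
    simp only [List.mem_filter, hR.u i, Bool.and_eq_true, Bool.not_eq_true',
      decide_eq_false_iff_not, Set.mem_union, Set.mem_insert_iff, ← Fin.ext_iff]
    tauto
  · intro x hx
    exact hR.ul x (List.mem_filter.1 hx).1
  · intro i
    simp only [List.mem_cons, hR.d i, Set.mem_insert_iff, ← Fin.ext_iff]
  · intro x hx
    rcases List.mem_cons.1 hx with rfl | hx
    · exact v.isLt
    · exact hR.dl x hx

theorem Rl.next' {M : List (List Bool)} {b : Ps} {D S : Set (Fin M.length)} (hR : Rl M b D S)
    {u v : Fin M.length} (hu : u ∉ D ∪ S) (hv : v ∉ D ∪ S) (huv : u ≠ v) :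
    Rl M (M, b.2.1.filter (fun x => !decide (x = u.val) && !decide (x = v.val)),
      u.val :: b.2.2.1, [], true) (insert u D) (insert v S) := by
  have h := hR.next hv hu huv.symm
  have e : (b.2.1.filter fun x => !decide (x = v.val) && !decide (x = u.val)) =
      b.2.1.filter fun x => !decide (x = u.val) && !decide (x = v.val) :=
    List.filter_congr fun x _ => Bool.and_comm _ _
  rw [e] at h
  exact h

theorem domWins_of_W {M : List (List Bool)} (h : valid M = true) {b : Ps}
    (hW : W (mvL moves) b) : ∀ D S : Set (Fin M.length), Rl M b D S → DomWins (grM M h) D S := by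
  induction hW with
  | mk b b' hb hr ih =>
    intro D S hR
    obtain ⟨M', U, D', off, fl⟩ := b
    have e1 : M' = M := hR.m
    have e2 := hR.o
    simp only [Prod.mk.injEq] at e2
    obtain ⟨rfl, rfl⟩ := e2
    subst e1
    have hd := domT_iff h hR.d hR.dl
    by_cases hD : domT M' D' = true
    · exact DomWins.done (hd.1 hD)
    · have hm : b' ∈ wMoves (M', U, D', [], true) := hb
      rw [mem_wMoves (b := (M', U, D', [], true)) hD] at hm
      obtain ⟨u, hu, v, hv, huv, rfl⟩ := hm
      simp only at hu hv
      have lu := hR.ul u hu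
      have lv := hR.ul v hv
      have hu' : (⟨u, lu⟩ : Fin M'.length) ∉ D ∪ S := (hR.u _).1 hu
      have hv' : (⟨v, lv⟩ : Fin M'.length) ∉ D ∪ S := (hR.u _).1 hv
      have huv' : (⟨u, lu⟩ : Fin M'.length) ≠ ⟨v, lv⟩ := fun e => huv (congrArg Fin.val e)
      refine DomWins.offer ⟨u, lu⟩ ⟨v, lv⟩ hu' hv' huv' ?_ ?_
      · refine ih _ ?_ _ _ (hR.next hu' hv' huv')
        simp [mvL, moves, cMoves]
      · refine ih _ ?_ _ _ (hR.next' hu' hv' huv')
        simp [mvL, moves, cMoves]

theorem W_of_dom {M : List (List Bool)} {U D' : List ℕ} (hD : domT M D' = true) :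
    W (mvL moves) (M, U, D', [], true) := by
  refine W.mk _ (M, [], D', [], false) ?_ ?_
  · change _ ∈ wMoves (M, U, D', [], true)
    unfold wMoves
    rw [if_pos hD]
    exact List.mem_singleton.2 rfl
  · intro c hc
    simp [mvL, moves] at hc

theorem W_of_domWins {M : List (List Bool)} (h : valid M = true) {D S : Set (Fin M.length)}
    (hW : DomWins (grM M h) D S) : ∀ b, Rl M b D S → W (mvL moves) b := by
  induction hW with
  | @done D S hd =>
    intro b hR
    obtain ⟨M', U, D', off, fl⟩ := b
    have e1 : M' = M := hR.m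
    have e2 := hR.o
    simp only [Prod.mk.injEq] at e2
    obtain ⟨rfl, rfl⟩ := e2
    subst e1
    exact W_of_dom ((domT_iff h hR.d hR.dl).2 hd)
  | @offer D S u v hu hv huv h1 h2 ih1 ih2 =>
    intro b hR
    obtain ⟨M', U, D', off, fl⟩ := b
    have e1 : M' = M := hR.m
    have e2 := hR.o
    simp only [Prod.mk.injEq] at e2
    obtain ⟨rfl, rfl⟩ := e2
    subst e1
    by_cases hD : domT M' D' = true
    · exact W_of_dom hD
    · refine W.mk _ (M', U.filter (fun x => !decide (x = u.val) && !decide (x = v.val)), D',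
        [u.val, v.val], true) ?_ ?_
      · change _ ∈ wMoves (M', U, D', [], true)
        rw [mem_wMoves (b := (M', U, D', [], true)) hD]
        exact ⟨u.val, (hR.u u).2 hu, v.val, (hR.u v).2 hv, fun e => huv (Fin.ext e), rfl⟩
      · intro c hc
        have hc' : c ∈ cMoves (M', U.filter (fun x => !decide (x = u.val) && !decide (x = v.val)),
            D', [u.val, v.val], true) := hc
        unfold cMoves at hc'
        simp only [List.map_cons, List.map_nil, List.mem_cons, List.not_mem_nil, or_false] at hc'
        rcases hc' with rfl | rfl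
        · exact ih2 _ (hR.next' hu hv huv)
        · exact ih1 _ (hR.next hu hv huv)
  | @last D S u hu h1 ih =>
    intro b hR
    obtain ⟨M', U, D', off, fl⟩ := b
    have e1 : M' = M := hR.m
    have e2 := hR.o
    simp only [Prod.mk.injEq] at e2
    obtain ⟨rfl, rfl⟩ := e2
    subst e1
    have hR' : Rl M' (M', [], D', [], true) D (insert u S) := by
      refine ⟨rfl, rfl, ?_, by simp, hR.d, hR.dl⟩
      intro i
      simp only [List.not_mem_nil, false_iff, not_not, Set.mem_union, Set.mem_insert_iff]
      by_contra hc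
      have : i ∈ (D ∪ S)ᶜ := by
        simp only [Set.mem_compl_iff, Set.mem_union]
        tauto
      rw [hu] at this
      exact hc (Or.inr (Or.inl this))
    have hW := ih _ hR'
    by_cases hD : domT M' D' = true
    · exact W_of_dom hD
    · obtain ⟨_, b', hb, _⟩ := hW
      have hm : b' ∈ wMoves (M', [], D', [], true) := hb
      rw [mem_wMoves (b := (M', [], D', [], true)) hD] at hm
      obtain ⟨u, hu, _⟩ := hm
      simp at hu

theorem W_iff_dom {M : List (List Bool)} (h : valid M = true) :
    W (mvL moves) (M, List.range M.length, [], [], true) ↔ DomWins (grM M h) ∅ ∅ := by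
  have hR : Rl M (M, List.range M.length, [], [], true) ∅ ∅ := by
    refine ⟨rfl, rfl, ?_, ?_, ?_, ?_⟩ <;> simp
  exact ⟨fun hW => domWins_of_W h hW _ _ hR, fun hW => W_of_domWins h hW _ hR⟩

theorem wcDom_iff {n : ℕ} (G : SimpleGraph (Fin n)) :
    WCDom (adjMatrix G) ↔ DomWins G ∅ ∅ := by
  constructor
  · rintro ⟨m, H, h, hW⟩
    obtain ⟨rfl, he⟩ := adjMatrix_inj' h
    have : H = G := by
      ext i j
      exact he i j
    rwa [← this]
  · exact fun h => ⟨n, G, rfl, h⟩

theorem wcDom_valid (M : List (List Bool)) :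
    WCDom M ↔ valid M = true ∧ W (mvL moves) (M, List.range M.length, [], [], true) := by
  constructor
  · rintro ⟨n, G, rfl, h⟩
    have hv := valid_adjMatrix G
    refine ⟨hv, ?_⟩
    rw [W_iff_dom hv, ← wcDom_iff, adjMatrix_grM]
    exact ⟨n, G, rfl, h⟩
  · rintro ⟨hv, h⟩
    rw [W_iff_dom hv] at h
    exact ⟨_, grM M hv, adjMatrix_grM hv, h⟩

/-- the initial position -/
def wInit (x : List Bool) : Ps :=
  ((unbits (List (List Bool)) x).getD [[true]],
    List.range ((unbits (List (List Bool)) x).getD [[true]]).length, [], [], true)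

/-- The Waiter-Client domination game is in PSPACE. -/
theorem wcDom_mem : InPSPACE (lang WCDom) := by
  have hdec : NPC.Poly (fun x : List Bool => (unbits (List (List Bool)) x).getD [[true]]) :=
    NPC.Poly.optGetD poly_unbits (NPC.Poly.const [[true]])
  have hlen : UPoly (fun x : List Bool => ((unbits (List (List Bool)) x).getD [[true]]).length) :=
    UPoly.length hdec
  have hinit : NPC.Poly wInit :=
    NPC.Poly.pair hdec (NPC.Poly.pair hlen.range (NPC.Poly.const (([], [], true) :
      List ℕ × List ℕ × Bool)))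
  refine inPSPACE_of_game hinit (good := fun b => valid b.1)
    (poly_valid.comp (NPC.Poly.fst NPC.Poly.id)) poly_moves sz_moves
    (w := fun x => ((unbits (List (List Bool)) x).getD [[true]]).length *
      ((unbits (List (List Bool)) x).getD [[true]]).length +
      (2 * ((unbits (List (List Bool)) x).getD [[true]]).length + 4)) ?_
    (fun x b => b.2.1.length ≤ ((unbits (List (List Bool)) x).getD [[true]]).length ∧
      b.2.2.2.1.length ≤ 2)
    rank ?_ ?_ ?_ ?_
  · exact (hlen.mul hlen).add (((UPoly.const 2).mul hlen).add (UPoly.const 4))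
  · intro x
    simp [wInit]
  · intro x b hb b' hb'
    exact rank_moves b _ hb b' hb'
  · intro x b hb
    refine ⟨(length_moves b _ hb).trans (by omega), ?_⟩
    have : b.2.2.2.2.toNat ≤ 1 := Bool.toNat_le _
    unfold rank
    omega
  · intro x
    rw [mem_lang_iff]
    unfold wInit
    simp only
    constructor
    · rintro ⟨M, hM, h⟩
      rw [hM, Option.getD_some]
      exact (wcDom_valid M).1 h
    · intro h
      cases hx : unbits (List (List Bool)) x with
      | none =>
        rw [hx, Option.getD_none] at h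
        exact absurd h.1 (by decide)
      | some M =>
        rw [hx, Option.getD_some] at h
        exact ⟨M, rfl, (wcDom_valid M).2 h⟩

end Pool.Agent.Q227.WD
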