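import Pool.Agent.Q227.WD.Wai
import Pool.Agent.Q227.WD.Mem
import Pool.Agent.H656R2.AK.MatPoly

/-!
# The reduction
-/

namespace Pool.Agent.Q227.WD

open Pool.Agent.NPC Pool.Agent.H623R2.PS Pool.Agent.H656R2.AK

set_option linter.unusedSectionVars false

/-- the matrix -/
def mxQ (Q : QF) : List (List Bool) := (vlQ Q).map fun x => (vlQ Q).map fun y => aQ Q x y

theorem mxQ_iff {Q : QF} (hQ : QFwf Q) :
    WCDom (mxQ Q) ↔ evq Q.1 (fun w => evc w Q.2) = true := by
  have hs := aQ_symm Q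
  have hi := aQ_self Q
  unfold mxQ
  rw [← adjMatrix_listGraph' (vlQ Q) (aQ Q) hs hi, wcDom_iff, ← GQ_iff hQ]
  have hinj : Function.Injective fun i : Fin (vlQ Q).length => (vlQ Q)[i] := by
    intro i j h
    exact Fin.ext ((List.Nodup.getElem_inj_iff (nodup_vlQ Q)).1 h)
  have hU : ∀ p, p ∈ {p | p ∈ vlQ Q} ↔ ∃ v : Fin (vlQ Q).length, (vlQ Q)[v] = p := by
    intro p
    constructor
    · intro h
      obtain ⟨i, hi, h⟩ := List.getElem_of_mem (show p ∈ vlQ Q from h)
      exact ⟨⟨i, hi⟩, h⟩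
    · rintro ⟨v, rfl⟩
      exact List.getElem_mem v.isLt
  constructor
  · intro h
    have := lw_of_domWins (fun i : Fin (vlQ Q).length => (vlQ Q)[i]) hinj hU
      (A := fun x y => aQ Q x y = true) (fun u v => Iff.rfl) h
    rw [Set.image_empty] at this
    exact this
  · intro h
    exact domWins_of_lw (fun i : Fin (vlQ Q).length => (vlQ Q)[i]) hinj hU
      (A := fun x y => aQ Q x y = true) (fun u v => Iff.rfl) h ∅ ∅ (by rw [Set.image_empty])
      (by rw [Set.image_empty])

theorem poly_rN : Poly (fun Q : QF => List.range Q.1.length) :=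
  (UPoly.length (l := fun Q : QF => Q.1) (by fun_prop)).range

theorem poly_chL0 : Poly (fun p : QF × ℕ => chL p.1 p.2) := by
  unfold chL
  refine NPC.Poly.map (l := fun p : QF × ℕ => (List.range p.1.1.length).filter
    fun k => decide (k < p.2) && !(p.1.1.getD k true)) (F := fun _ k => ((k, 0) : Pt)) ?_
    (by fun_prop)
  exact NPC.Poly.filter (l := fun p : QF × ℕ => List.range p.1.1.length)
    (p := fun p k => decide (k < p.2) && !(p.1.1.getD k true))
    (poly_rN.comp (Poly.fst Poly.id)) (by fun_prop)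

theorem poly_chL {α : Type} [TEnc α] {Q : α → QF} {t : α → ℕ} (hQ : Poly Q) (ht : Poly t) :
    Poly (fun a => chL (Q a) (t a)) := poly_chL0.comp (hQ.pair ht)

attribute [fun_prop] poly_chL

theorem poly_uL0 : Poly (fun p : QF × ℕ => uL p.1 p.2) := by
  unfold uL
  exact NPC.Poly.flatMap (l := fun p : QF × ℕ => List.range p.1.1.length)
    (F := fun p i => if (decide (p.2 < i) && p.1.1.getD i false) = true then
      [chL p.1 p.2 ++ [(p.2, 3), (p.2, 1), (i, 3), (i, 1)],
        chL p.1 p.2 ++ [(p.2, 3), (p.2, 1), (i, 4), (i, 2)],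
        chL p.1 p.2 ++ [(p.2, 4), (p.2, 1), (i, 3), (i, 1)],
        chL p.1 p.2 ++ [(p.2, 4), (p.2, 1), (i, 4), (i, 2)]] else [])
    (poly_rN.comp (Poly.fst Poly.id)) (by fun_prop)

theorem poly_uL {α : Type} [TEnc α] {Q : α → QF} {t : α → ℕ} (hQ : Poly Q) (ht : Poly t) :
    Poly (fun a => uL (Q a) (t a)) := poly_uL0.comp (hQ.pair ht)

attribute [fun_prop] poly_uL

theorem poly_lvL0 : Poly (fun p : QF × ℕ => lvL p.1 p.2) := by
  unfold lvL
  fun_prop

theorem poly_clL : Poly clL := by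
  unfold clL
  have h : Poly (fun Q : QF => chL Q Q.1.length) :=
    poly_chL Poly.id (UPoly.toPoly (UPoly.length (l := fun Q : QF => Q.1) (by fun_prop)))
  refine NPC.Poly.map (l := fun Q : QF => Q.2)
    (F := fun Q c => chL Q Q.1.length ++ c.map fun l => ((l.2, if l.1 = true then 4 else 3) : Pt))
    (by fun_prop) ?_
  refine NPC.Poly.append (h.comp (Poly.fst Poly.id)) ?_
  exact NPC.Poly.map (l := fun p : QF × List (Bool × ℕ) => p.2)
    (F := fun _ l => ((l.2, if l.1 = true then 4 else 3) : Pt)) (by fun_prop) (by fun_prop)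

theorem poly_allL : Poly allL := by
  unfold allL
  have h1 : UPoly (fun Q : QF => Q.1.length + 1) :=
    (UPoly.length (l := fun Q : QF => Q.1) (by fun_prop)).add (UPoly.const 1)
  have h2 := h1.range
  have h3 : Poly (fun Q : QF => List.range 5) := NPC.Poly.const _
  fun_prop

theorem poly_edL : Poly edL := by
  unfold edL
  have h1 : Poly (fun Q : QF => (List.range Q.1.length).flatMap (lvL Q)) :=
    NPC.Poly.flatMap (l := fun Q : QF => List.range Q.1.length) (F := fun Q j => lvL Q j)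
      poly_rN poly_lvL0
  have h2 : Poly (fun Q : QF => [allL Q]) := by
    have := poly_allL
    fun_prop
  exact h2.append (h1.append poly_clL)

attribute [local irreducible] edL

theorem poly_vlQ : Poly vlQ := by
  unfold vlQ
  have h1 : UPoly (fun Q : QF => (edL Q).length) := UPoly.length poly_edL
  have h2 : UPoly (fun Q : QF => nt Q) := by
    unfold nt
    exact (((UPoly.const 5).mul ((UPoly.length (l := fun Q : QF => Q.1) (by fun_prop)).add
      (UPoly.const 1))).add h1).add (UPoly.const 1)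
  have h3 := h1.range
  have h4 := h2.range
  refine poly_allL.append ?_
  exact NPC.Poly.map (l := fun Q : QF => List.range (edL Q).length ×ˢ List.range (nt Q))
    (F := fun _ p => ((p.1, 5 + p.2) : Pt)) (by fun_prop) (by fun_prop)

theorem poly_hQ : Poly (fun p : QF × Pt × Pt => hQ p.1 p.2.1 p.2.2) := by
  unfold hQ
  have h1 : Poly (fun p : QF × Pt × Pt => edL p.1) := poly_edL.comp (Poly.fst Poly.id)
  fun_prop

theorem poly_hQ' {α : Type} [TEnc α] {Q : α → QF} {x y : α → Pt} (h1 : Poly Q) (h2 : Poly x)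
    (h3 : Poly y) : Poly (fun a => hQ (Q a) (x a) (y a)) := poly_hQ.comp (h1.pair (h2.pair h3))

attribute [fun_prop] poly_hQ'

theorem poly_aQ : Poly (fun p : QF × Pt × Pt => aQ p.1 p.2.1 p.2.2) := by
  unfold aQ
  fun_prop

theorem poly_aQ' {α : Type} [TEnc α] {Q : α → QF} {x y : α → Pt} (h1 : Poly Q) (h2 : Poly x)
    (h3 : Poly y) : Poly (fun a => aQ (Q a) (x a) (y a)) := poly_aQ.comp (h1.pair (h2.pair h3))

attribute [local irreducible] vlQ aQ

theorem poly_row : Poly (fun p : QF × Pt => (vlQ p.1).map fun y => aQ p.1 p.2 y) :=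
  NPC.Poly.map (l := fun p : QF × Pt => vlQ p.1) (F := fun p y => aQ p.1 p.2 y)
    (poly_vlQ.comp (Poly.fst Poly.id))
    (poly_aQ' (Poly.fst (Poly.fst Poly.id)) (Poly.snd (Poly.fst Poly.id)) (Poly.snd Poly.id))

theorem poly_mxQ : Poly mxQ :=
  NPC.Poly.map poly_vlQ (F := fun Q x => (vlQ Q).map fun y => aQ Q x y) poly_row

theorem wcDom_reduction {L : Set (List Bool)} (hL : InPSPACE L) :
    ∃ f : List Bool → List (List Bool), NPC.Poly f ∧ ∀ x, x ∈ L ↔ WCDom (f x) := by
  obtain ⟨f, hf, hwf, hf'⟩ := qbf_hard hL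
  exact ⟨fun x => mxQ (f x), poly_mxQ.comp hf, fun x => by rw [hf' x, mxQ_iff (hwf x)]⟩

theorem wcDom_hard : PSPACEHard (lang WCDom) := by
  intro L hL
  obtain ⟨f, hf, hf'⟩ := wcDom_reduction hL
  exact ⟨fun x => bits (f x), polyTime_bits hf, fun x => by rw [hf' x, bits_mem_lang]⟩

theorem wcDom_complete : PSPACEComplete (lang WCDom) := ⟨wcDom_mem, wcDom_hard⟩

end Pool.Agent.Q227.WD
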