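import Pool.Agent.Q227.WD.Ed

/-!
# Dominator wins when the formula is true
-/

namespace Pool.Agent.Q227.WD

open Pool.Agent.H623R2.PS Pool.Agent.H656R2.AK

/-- The position after the variables `< i` are decided. -/
structure Stg (Q : QF) (β : ℕ → Bool) (i : ℕ) (D S : Set Pt) : Prop where
  free : ∀ p : Pt, i ≤ p.1 → p.2 < 5 → p ∉ D ∪ S
  copy : ∀ p : Pt, 5 ≤ p.2 → p ∉ D ∪ S
  lit : ∀ k < i, L k (β k) ∈ D
  oth : ∀ k < i, exQ Q k → L k (!β k) ∈ D ∨ (k, 1) ∈ D

theorem Stg.hit {Q : QF} {β : ℕ → Bool} {i : ℕ} {D S : Set Pt} (G : Stg Q β i D S) {j : ℕ}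
    (hj : j < i) {X : Set Pt} (hX : Lvf Q j X) : ∃ p ∈ X, p ∈ D := by
  have h1 := G.lit j hj
  cases hX with
  | e1 h =>
    refine ⟨_, ?_, h1⟩
    cases β j <;> simp [L]
  | e1q h b =>
    by_cases e : b = β j
    · subst e
      exact ⟨_, by simp, h1⟩
    · have e2 : b = !β j := by
        revert e
        cases b <;> cases β j <;> simp
      rw [e2]
      rcases G.oth j hj h with h2 | h2
      · exact ⟨_, by simp, h2⟩
      · exact ⟨_, by simp, h2⟩
  | e2 h b =>
    by_cases e : b = β j
    · subst e
      exact ⟨_, by simp, h1⟩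
    · have e2 : b = !β j := by
        revert e
        cases b <;> cases β j <;> simp
      rw [e2]
      rcases G.oth j hj h with h2 | h2
      · exact ⟨_, by simp, h2⟩
      · exact ⟨_, by simp, h2⟩
  | e3 h i' hi hji b b' =>
    by_cases e : b = β j
    · subst e
      exact ⟨_, by simp, h1⟩
    · have e2 : b = !β j := by
        revert e
        cases b <;> cases β j <;> simp
      rw [e2]
      rcases G.oth j hj h with h2 | h2
      · exact ⟨_, by simp, h2⟩
      · exact ⟨_, by simp, h2⟩
  | e4 h =>
    refine ⟨_, ?_, h1⟩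
    cases β j <;> simp

theorem edL_lt {Q : QF} (hQ : QFwf Q) {l : List Pt} (hl : l ∈ edL Q) {p : Pt} (hp : p ∈ l) :
    p.1 < Q.1.length + 1 ∧ p.2 < 5 := by
  have hch : ∀ t ≤ Q.1.length, ∀ p ∈ ch (exQ Q) t, p.1 < Q.1.length + 1 ∧ p.2 < 5 := by
    rintro t ht p ⟨h1, h2, h3⟩
    omega
  rcases edL_cases hl with rfl | ⟨j, hj, X, hX, h⟩ | ⟨c, hc, h⟩
  · exact mem_allL.1 hp
  · have hp' := (h p).1 hp
    cases hX with
    | e1 h' =>
      rcases hp' with hp' | hp'
      · exact hch j hj.le p hp'
      · rcases hp' with rfl | rfl | rfl <;> exact ⟨by simp only; omega, by norm_num⟩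
    | e1q h' b =>
      rcases hp' with hp' | hp'
      · exact hch j hj.le p hp'
      · rcases hp' with rfl | rfl | rfl
        · exact ⟨by simp only; omega, by norm_num⟩
        · exact ⟨by rw [L_fst]; omega, L_lt _ _⟩
        · exact ⟨by simp only; omega, by norm_num⟩
    | e2 h' b =>
      rcases hp' with hp' | hp'
      · exact hch j hj.le p hp'
      · rcases hp' with rfl | rfl | rfl
        · exact ⟨by rw [L_fst]; omega, L_lt _ _⟩
        · exact ⟨by simp only; omega, by norm_num⟩
        · exact ⟨by simp only; omega, by norm_num⟩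
    | e3 h' i hi hji b b' =>
      have := unQ_lt hi
      rcases hp' with hp' | hp'
      · exact hch j hj.le p hp'
      · rcases hp' with rfl | rfl | rfl | rfl
        · exact ⟨by rw [L_fst]; omega, L_lt _ _⟩
        · exact ⟨by simp only; omega, by norm_num⟩
        · exact ⟨by rw [L_fst]; omega, L_lt _ _⟩
        · exact ⟨by rw [gv_fst]; omega, by have := gv_lt i b'; omega⟩
    | e4 h' =>
      rcases hp' with hp' | hp'
      · exact hch j hj.le p hp'
      · rcases hp' with rfl | rfl
        · exact ⟨by rw [L_fst]; omega, L_lt _ _⟩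
        · exact ⟨by rw [L_fst]; omega, L_lt _ _⟩
  · rcases (h p).1 hp with hp' | ⟨l', hl', rfl⟩
    · exact hch _ le_rfl p hp'
    · have := hQ c hc l' hl'
      exact ⟨by rw [L_fst]; omega, L_lt _ _⟩

/-- adjacency to a copy -/
theorem aQ_copy {Q : QF} {e k : ℕ} (he : e < (edL Q).length) {p : Pt} (h2 : p.2 < 5)
    (hp : p ∈ (edL Q)[e]) : aQ Q p (e, 5 + k) = true := by
  unfold aQ
  rw [Bool.or_eq_true, hQ_iff]
  left
  refine ⟨⟨h2, by simp⟩, ?_⟩
  simp only
  rw [List.getD_eq_getElem _ _ he]
  exact hp

theorem edL_pos (Q : QF) : 0 < (edL Q).length := by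
  unfold edL
  simp

theorem edL_zero (Q : QF) : (edL Q)[0]'(edL_pos Q) = allL Q := rfl

/-- The final pairing: every edge is hit by `D` or contains a pair of `M`. -/
theorem final {Q : QF} (hQ : QFwf Q) (M : List (Pt × Pt)) (D S : Set Pt)
    (hn : (M.flatMap fun p => [p.1, p.2]).Nodup)
    (hf : ∀ x ∈ M.flatMap fun p => [p.1, p.2], x.1 < Q.1.length + 1 ∧ x.2 < 5 ∧ x ∉ D ∪ S)
    (hc : ∀ p : Pt, 5 ≤ p.2 → p ∉ D ∪ S)
    (h : ∀ l ∈ edL Q, (∃ p ∈ l, p ∈ D) ∨ ∃ q ∈ M, q.1 ∈ l ∧ q.2 ∈ l) : GQ Q D S := by
  have hpos := edL_pos Q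
  refine lw_pairs (((0, 5), (0, 6)) :: M) D S ?_ ?_ ?_
  · rw [List.flatMap_cons, List.nodup_append]
    refine ⟨by simp, hn, ?_⟩
    rintro a ha b hb rfl
    have := (hf a hb).2.1
    simp only [List.mem_cons, List.not_mem_nil, or_false] at ha
    rcases ha with rfl | rfl <;> simp at this
  · intro x hx
    rw [List.flatMap_cons, List.mem_append] at hx
    rcases hx with hx | hx
    · simp only [List.mem_cons, List.not_mem_nil, or_false] at hx
      rcases hx with rfl | rfl
      · refine ⟨mem_vlQ.2 (Or.inr ⟨0, 0, hpos, by unfold nt; omega, rfl⟩), hc _ (by norm_num)⟩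
      · refine ⟨mem_vlQ.2 (Or.inr ⟨0, 1, hpos, by unfold nt; omega, rfl⟩), hc _ (by norm_num)⟩
    · obtain ⟨h1, h2, h3⟩ := hf x hx
      exact ⟨mem_vlQ.2 (Or.inl ⟨h1, h2⟩), h3⟩
  · intro v hv
    rcases mem_vlQ.1 hv with hv | ⟨e, k, he, hk, rfl⟩
    · right
      refine ⟨_, List.mem_cons_self, ?_, ?_⟩
      · right
        rw [aQ_symm]
        refine aQ_copy (k := 0) hpos hv.2 ?_
        rw [edL_zero]
        exact mem_allL.2 hv
      · right
        rw [aQ_symm]
        refine aQ_copy (k := 1) hpos hv.2 ?_
        rw [edL_zero]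
        exact mem_allL.2 hv
    · have hmem : (edL Q)[e] ∈ edL Q := List.getElem_mem he
      rcases h _ hmem with ⟨p, hp, hpD⟩ | ⟨q, hq, h1, h2⟩
      · exact Or.inl (Or.inr ⟨p, hpD, aQ_copy he (edL_lt hQ hmem hp).2 hp⟩)
      · exact Or.inr ⟨q, List.mem_cons_of_mem _ hq, Or.inr (aQ_copy he (edL_lt hQ hmem h1).2 h1),
          Or.inr (aQ_copy he (edL_lt hQ hmem h2).2 h2)⟩

theorem Stg.end {Q : QF} (hQ : QFwf Q) {u : List Bool} (hu : u.length = Q.1.length) {D S : Set Pt}
    (G : Stg Q (fun k => u.getD k false) u.length D S) (he : evc u Q.2 = true) : GQ Q D S := by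
  refine final hQ [((Q.1.length, 0), (Q.1.length, 1))] D S (by simp) ?_ G.copy ?_
  · intro x hx
    simp only [List.flatMap_cons, List.flatMap_nil, List.append_nil, List.mem_cons,
      List.not_mem_nil, or_false] at hx
    rcases hx with rfl | rfl
    · exact ⟨by simp, by norm_num, G.free _ (by simp only; omega) (by norm_num)⟩
    · exact ⟨by simp, by norm_num, G.free _ (by simp only; omega) (by norm_num)⟩
  · intro l hl
    rcases edL_cases hl with rfl | ⟨j, hj, X, hX, h⟩ | ⟨c, hc, h⟩
    · exact Or.inr ⟨_, List.mem_singleton.2 rfl, mem_allL.2 ⟨by simp, by norm_num⟩,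
        mem_allL.2 ⟨by simp, by norm_num⟩⟩
    · obtain ⟨p, hp, hpD⟩ := G.hit (j := j) (by omega) hX
      exact Or.inl ⟨p, (h p).2 hp, hpD⟩
    · unfold evc at he
      rw [List.all_eq_true] at he
      have h2 := he c hc
      rw [List.any_eq_true] at h2
      obtain ⟨l', hl', h3⟩ := h2
      rw [beq_iff_eq] at h3
      have hlt := hQ c hc l' hl'
      have h4 := G.lit l'.2 (by omega)
      rw [h3] at h4
      exact Or.inl ⟨_, (h _).2 (Or.inr ⟨l', hl', rfl⟩), h4⟩

/-- the pairs for the case that Staller refuses -/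
def prs (j n : ℕ) : List (Pt × Pt) :=
  ((j, 1), (j, 2)) :: (List.range n).flatMap fun i => if j < i then
    [((i, 3), (i, 1)), ((i, 4), (i, 2))] else []

theorem mem_prs {j n : ℕ} {x : Pt} (h : x ∈ (prs j n).flatMap fun p => [p.1, p.2]) :
    (x = (j, 1) ∨ x = (j, 2)) ∨ (j < x.1 ∧ x.1 < n ∧ 1 ≤ x.2 ∧ x.2 < 5) := by
  unfold prs at h
  rw [List.flatMap_cons, List.mem_append] at h
  rcases h with h | h
  · left
    simpa using h
  · right
    rw [List.mem_flatMap] at h
    obtain ⟨q, hq, hx⟩ := h
    rw [List.mem_flatMap] at hq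
    obtain ⟨i, hi, hq⟩ := hq
    rw [List.mem_range] at hi
    split_ifs at hq with h1
    · simp only [List.mem_cons, List.not_mem_nil, or_false] at hq hx
      rcases hq with rfl | rfl
      · rcases hx with rfl | rfl <;> exact ⟨h1, hi, by norm_num, by norm_num⟩
      · rcases hx with rfl | rfl <;> exact ⟨h1, hi, by norm_num, by norm_num⟩
    · simp at hq

theorem nodup_prs (j n : ℕ) : ((prs j n).flatMap fun p => [p.1, p.2]).Nodup := by
  have key : ∀ n, (((List.range n).flatMap fun i => if j < i then
      [(((i, 3), (i, 1)) : Pt × Pt), ((i, 4), (i, 2))] else []).flatMap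
        fun p => [p.1, p.2]).Nodup ∧ ∀ x ∈ (((List.range n).flatMap fun i => if j < i then
      [(((i, 3), (i, 1)) : Pt × Pt), ((i, 4), (i, 2))] else []).flatMap
        fun p => [p.1, p.2]), j < x.1 ∧ x.1 < n := by
    intro n
    induction n with
    | zero => simp
    | succ n ih =>
      rw [List.range_succ, List.flatMap_append, List.flatMap_append]
      constructor
      · rw [List.nodup_append]
        refine ⟨ih.1, ?_, ?_⟩
        · simp only [List.flatMap_cons, List.flatMap_nil, List.append_nil]
          split_ifs <;> simp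
        · rintro a ha b hb rfl
          have h1 := (ih.2 a ha).2
          simp only [List.flatMap_cons, List.flatMap_nil, List.append_nil] at hb
          split_ifs at hb
          · simp only [List.flatMap_cons, List.flatMap_nil, List.append_nil, List.cons_append,
              List.nil_append, List.mem_cons, List.not_mem_nil, or_false] at hb
            rcases hb with rfl | rfl | rfl | rfl <;> simp at h1
          · simp at hb
      · intro x hx
        rw [List.mem_append] at hx
        rcases hx with hx | hx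
        · have := ih.2 x hx
          omega
        · simp only [List.flatMap_cons, List.flatMap_nil, List.append_nil] at hx
          split_ifs at hx with h1
          · simp only [List.flatMap_cons, List.flatMap_nil, List.append_nil, List.cons_append,
              List.nil_append, List.mem_cons, List.not_mem_nil, or_false] at hx
            rcases hx with rfl | rfl | rfl | rfl <;> exact ⟨h1, by simp⟩
          · simp at hx
  unfold prs
  rw [List.flatMap_cons, List.nodup_append]
  refine ⟨by simp, (key n).1, ?_⟩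
  rintro a ha b hb rfl
  have h1 := (key n).2 a hb
  simp only [List.mem_cons, List.not_mem_nil, or_false] at ha
  rcases ha with rfl | rfl <;> simp at h1

/-- Staller refuses the chain vertex. -/
theorem Stg.refuse {Q : QF} (hQ : QFwf Q) {β : ℕ → Bool} {j : ℕ} (hj : exQ Q j) {D S : Set Pt}
    (G : Stg Q β j D S) (b : Bool) : GQ Q (insert (j, 0) D) (insert (L j b) S) := by
  have hjl := exQ_lt hj
  have hL0 := L_ge j b
  refine final hQ (prs j Q.1.length) _ _ (nodup_prs _ _) ?_ ?_ ?_
  · intro x hx
    have hfr : j ≤ x.1 → x.2 < 5 → x ≠ (j, 0) → x ≠ L j b →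
        x ∉ insert (j, 0) D ∪ insert (L j b) S := by
      intro h1 h2 h3 h4 h5
      have := G.free x h1 h2
      rcases h5 with (h5 | h5) | (h5 | h5)
      exacts [h3 h5, this (Or.inl h5), h4 h5, this (Or.inr h5)]
    rcases mem_prs hx with (rfl | rfl) | ⟨h1, h2, h3, h4⟩
    · refine ⟨by simp only; omega, by norm_num, hfr le_rfl (by norm_num) (by simp) ?_⟩
      intro h
      rw [← h] at hL0
      simp at hL0
    · refine ⟨by simp only; omega, by norm_num, hfr le_rfl (by norm_num) (by simp) ?_⟩
      intro h
      rw [← h] at hL0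
      simp at hL0
    · refine ⟨by omega, h4, hfr h1.le h4 ?_ ?_⟩
      · rintro rfl
        simp at h1
      · rintro rfl
        rw [L_fst] at h1
        omega
  · intro p hp h5
    have := G.copy p hp
    rcases h5 with (h5 | h5) | (h5 | h5)
    · rw [h5] at hp
      simp at hp
    · exact this (Or.inl h5)
    · rw [h5] at hp
      have := L_lt j b
      omega
    · exact this (Or.inr h5)
  · have hch : ∀ t, j < t → ((j, 0) : Pt) ∈ ch (exQ Q) t := fun t ht => ⟨hj, ht, rfl⟩
    have hp0 : (((j, 1), (j, 2)) : Pt × Pt) ∈ prs j Q.1.length := List.mem_cons_self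
    have hpi : ∀ i < Q.1.length, j < i → ∀ b', (L i b', gv i b') ∈ prs j Q.1.length := by
      intro i hi hji b'
      unfold prs
      refine List.mem_cons_of_mem _ (List.mem_flatMap.2 ⟨i, List.mem_range.2 hi, ?_⟩)
      rw [if_pos hji]
      cases b' <;> simp [L, gv]
    intro l hl
    rcases edL_cases hl with rfl | ⟨k, hk, X, hX, h⟩ | ⟨c, hc, h⟩
    · exact Or.inl ⟨(j, 0), mem_allL.2 ⟨by simp only; omega, by norm_num⟩, Or.inl rfl⟩
    · rcases lt_trichotomy k j with hkj | rfl | hkj
      · obtain ⟨p, hp, hpD⟩ := G.hit hkj hX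
        exact Or.inl ⟨p, (h p).2 hp, Or.inr hpD⟩
      · cases hX with
        | e1 h' => exact Or.inl ⟨(k, 0), (h _).2 (by simp), Or.inl rfl⟩
        | e1q h' b => exact Or.inl ⟨(k, 0), (h _).2 (by simp), Or.inl rfl⟩
        | e2 h' b => exact Or.inr ⟨_, hp0, (h _).2 (by simp), (h _).2 (by simp)⟩
        | e3 h' i hi hji b b' =>
          exact Or.inr ⟨_, hpi i (unQ_lt hi) hji b', (h _).2 (by simp), (h _).2 (by simp)⟩
        | e4 h' => exact absurd h' (exQ_not_un hj)
      · refine Or.inl ⟨(j, 0), (h _).2 ?_, Or.inl rfl⟩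
        cases hX <;> exact Or.inl (hch k hkj)
    · exact Or.inl ⟨(j, 0), (h _).2 (Or.inl (hch _ hjl)), Or.inl rfl⟩

theorem getD_snoc {u : List Bool} {b : Bool} {k : ℕ} (h : k < u.length) :
    (u ++ [b]).getD k false = u.getD k false := by
  simp only [List.getD_eq_getElem?_getD]
  rw [List.getElem?_append_left h]

theorem getD_snoc' {u : List Bool} {b : Bool} : (u ++ [b]).getD u.length false = b := by
  simp [List.getD_eq_getElem?_getD]

/-- the next stage after an existential variable -/
theorem Stg.nextE {Q : QF} {u : List Bool} {D S : Set Pt}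
    (G : Stg Q (fun k => u.getD k false) u.length D S) (b : Bool) {a a' : Pt}
    (ha : (a = L u.length (!b) ∧ a' = (u.length, 1)) ∨ (a = (u.length, 1) ∧ a' = L u.length (!b))) :
    Stg Q (fun k => (u ++ [b]).getD k false) (u ++ [b]).length
      (insert a (insert (L u.length b) D)) (insert a' (insert (u.length, 0) S)) := by
  have hlen : (u ++ [b]).length = u.length + 1 := by simp
  have ha1 : a.1 = u.length ∧ a.2 < 5 ∧ a'.1 = u.length ∧ a'.2 < 5 := by
    rcases ha with ⟨rfl, rfl⟩ | ⟨rfl, rfl⟩
    · exact ⟨rfl, L_lt _ _, rfl, by norm_num⟩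
    · exact ⟨rfl, by norm_num, rfl, L_lt _ _⟩
  have hLl := L_lt u.length b
  rw [hlen]
  refine ⟨?_, ?_, ?_, ?_⟩
  · intro p h1 h2 h3
    have h4 := G.free p (by omega) h2
    rcases h3 with (h3 | h3 | h3) | (h3 | h3 | h3)
    · rw [h3] at h1
      omega
    · rw [h3, L_fst] at h1
      omega
    · exact h4 (Or.inl h3)
    · rw [h3] at h1
      omega
    · rw [h3] at h1
      simp at h1
    · exact h4 (Or.inr h3)
  · intro p h2 h3
    have h4 := G.copy p h2
    rcases h3 with (h3 | h3 | h3) | (h3 | h3 | h3)
    · rw [h3] at h2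
      omega
    · rw [h3] at h2
      omega
    · exact h4 (Or.inl h3)
    · rw [h3] at h2
      omega
    · rw [h3] at h2
      simp at h2
    · exact h4 (Or.inr h3)
  · intro k hk
    by_cases e : k = u.length
    · subst e
      rw [getD_snoc']
      exact Or.inr (Or.inl rfl)
    · rw [getD_snoc (by omega)]
      exact Or.inr (Or.inr (G.lit k (by omega)))
  · intro k hk he
    by_cases e : k = u.length
    · subst e
      rw [getD_snoc']
      rcases ha with ⟨h, _⟩ | ⟨h, _⟩
      · left
        rw [h]
        exact Or.inl rfl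
      · right
        rw [h]
        exact Or.inl rfl
    · rw [getD_snoc (by omega)]
      exact (G.oth k (by omega) he).imp (fun h => Or.inr (Or.inr h)) (fun h => Or.inr (Or.inr h))

/-- the next stage after a universal variable -/
theorem Stg.nextU {Q : QF} {u : List Bool} {D S : Set Pt}
    (G : Stg Q (fun k => u.getD k false) u.length D S) (hu : unQ Q u.length) (b : Bool) :
    Stg Q (fun k => (u ++ [b]).getD k false) (u ++ [b]).length
      (insert (L u.length b) D) (insert (L u.length (!b)) S) := by
  have hlen : (u ++ [b]).length = u.length + 1 := by simp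
  have hLl := L_lt u.length b
  have hLl' := L_lt u.length (!b)
  rw [hlen]
  refine ⟨?_, ?_, ?_, ?_⟩
  · intro p h1 h2 h3
    have h4 := G.free p (by omega) h2
    rcases h3 with (h3 | h3) | (h3 | h3)
    · rw [h3, L_fst] at h1
      omega
    · exact h4 (Or.inl h3)
    · rw [h3, L_fst] at h1
      omega
    · exact h4 (Or.inr h3)
  · intro p h2 h3
    have h4 := G.copy p h2
    rcases h3 with (h3 | h3) | (h3 | h3)
    · rw [h3] at h2
      omega
    · exact h4 (Or.inl h3)
    · rw [h3] at h2
      omega
    · exact h4 (Or.inr h3)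
  · intro k hk
    by_cases e : k = u.length
    · subst e
      rw [getD_snoc']
      exact Or.inl rfl
    · rw [getD_snoc (by omega)]
      exact Or.inr (G.lit k (by omega))
  · intro k hk he
    by_cases e : k = u.length
    · subst e
      exact absurd hu (exQ_not_un he)
    · rw [getD_snoc (by omega)]
      exact (G.oth k (by omega) he).imp (fun h => Or.inr h) (fun h => Or.inr h)

theorem stage_wins {Q : QF} (hQ : QFwf Q) : ∀ (rest u : List Bool) (D S : Set Pt),
    Q.1 = Q.1.take u.length ++ rest → u.length + rest.length = Q.1.length →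
    Stg Q (fun k => u.getD k false) u.length D S →
    evq rest (fun w => evc (u ++ w) Q.2) = true → GQ Q D S
  | [], u, D, S, _, hl, G, he => by
    refine G.end hQ (by simpa using hl) ?_
    simpa [evq] using he
  | q :: rest, u, D, S, hd, hl, G, he => by
    have hlt : u.length < Q.1.length := by
      rw [List.length_cons] at hl
      omega
    have hq : Q.1[u.length] = q := by
      have h1 : (Q.1.take u.length ++ q :: rest)[u.length]? = some q := by
        rw [List.getElem?_append_right (by simp)]
        simp [hlt.le]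
      rw [← hd, List.getElem?_eq_getElem hlt] at h1
      exact Option.some.inj h1
    have hd' : ∀ b, Q.1 = Q.1.take (u ++ [b]).length ++ rest := by
      intro b
      rw [List.length_append, List.length_singleton, List.take_succ_eq_append_getElem hlt, hq,
        List.append_assoc]
      exact hd
    have hl' : ∀ b, (u ++ [b]).length + rest.length = Q.1.length := by
      intro b
      rw [List.length_append, List.length_singleton]
      rw [List.length_cons] at hl
      omega
    have hw : ∀ (b : Bool), (fun w => evc ((u ++ [b]) ++ w) Q.2) = fun w => evc (u ++ (b :: w)) Q.2 := by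
      intro b
      funext w
      rw [List.append_assoc]
      rfl
    have hU : ∀ p : Pt, p.1 < Q.1.length + 1 → p.2 < 5 → p ∈ {p | p ∈ vlQ Q} := fun p h1 h2 =>
      mem_vlQ.2 (Or.inl ⟨h1, h2⟩)
    cases q with
    | false =>
      have hex : exQ Q u.length := by
        unfold exQ
        rw [List.getD_eq_getElem _ _ hlt, hq]
      obtain ⟨b, hb⟩ : ∃ b, evq rest (fun w => evc (u ++ (b :: w)) Q.2) = true := by
        simp only [evq, cond_false, Bool.or_eq_true] at he
        rcases he with he | he
        · exact ⟨_, he⟩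
        · exact ⟨_, he⟩
      have hL0 : ((u.length, 0) : Pt) ≠ L u.length b := by cases b <;> simp [L]
      refine LW.offer (u.length, 0) (L u.length b) (hU _ (by simp only; omega) (by norm_num))
        (hU _ (by rw [L_fst]; omega) (L_lt _ _)) (G.free _ le_rfl (by norm_num))
        (G.free _ (by rw [L_fst]) (L_lt _ _)) hL0 ?_ ?_
      · have n1 : L u.length (!b) ≠ (u.length, 1) := by cases b <;> simp [L]
        have n2 : L u.length (!b) ≠ L u.length b := by cases b <;> simp [L]
        have n3 : L u.length (!b) ≠ (u.length, 0) := by cases b <;> simp [L]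
        have n4 : ((u.length, 1) : Pt) ≠ L u.length b := by cases b <;> simp [L]
        have n5 : ((u.length, 1) : Pt) ≠ (u.length, 0) := by simp
        have f1 := G.free (L u.length (!b)) (by rw [L_fst]) (L_lt _ _)
        have f2 := G.free (u.length, 1) le_rfl (by norm_num)
        refine LW.offer (L u.length (!b)) (u.length, 1) (hU _ (by rw [L_fst]; omega) (L_lt _ _))
          (hU _ (by simp only; omega) (by norm_num)) ?_ ?_ n1 ?_ ?_
        · rintro ((h | h) | (h | h))
          exacts [n2 h, f1 (Or.inl h), n3 h, f1 (Or.inr h)]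
        · rintro ((h | h) | (h | h))
          exacts [n4 h, f2 (Or.inl h), n5 h, f2 (Or.inr h)]
        · refine stage_wins hQ rest (u ++ [b]) _ _ (hd' b) (hl' b)
            (G.nextE b (Or.inr ⟨rfl, rfl⟩)) ?_
          rw [hw]
          exact hb
        · refine stage_wins hQ rest (u ++ [b]) _ _ (hd' b) (hl' b)
            (G.nextE b (Or.inl ⟨rfl, rfl⟩)) ?_
          rw [hw]
          exact hb
      · exact G.refuse hQ hex b
    | true =>
      have hun : unQ Q u.length := by
        unfold unQ
        rw [List.getD_eq_getElem _ _ hlt, hq]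
      simp only [evq, cond_true, Bool.and_eq_true] at he
      have hne : L u.length false ≠ L u.length true := by simp [L]
      refine LW.offer (L u.length false) (L u.length true) (hU _ (by rw [L_fst]; omega) (L_lt _ _))
        (hU _ (by rw [L_fst]; omega) (L_lt _ _)) (G.free _ (by rw [L_fst]) (L_lt _ _))
        (G.free _ (by rw [L_fst]) (L_lt _ _)) hne ?_ ?_
      · refine stage_wins hQ rest (u ++ [true]) _ _ (hd' _) (hl' _) (G.nextU hun true) ?_
        rw [hw]
        exact he.2
      · refine stage_wins hQ rest (u ++ [false]) _ _ (hd' _) (hl' _) (G.nextU hun false) ?_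
        rw [hw]
        exact he.1

theorem true_imp {Q : QF} (hQ : QFwf Q) (h : evq Q.1 (fun w => evc w Q.2) = true) :
    GQ Q ∅ ∅ := by
  refine stage_wins hQ Q.1 [] ∅ ∅ (by simp) (by simp) ?_ (by simpa using h)
  exact ⟨fun p _ _ => by simp, fun p _ => by simp, fun k hk => by simp at hk,
    fun k hk => by simp at hk⟩

theorem GQ_iff {Q : QF} (hQ : QFwf Q) : GQ Q ∅ ∅ ↔ evq Q.1 (fun w => evc w Q.2) = true := by
  constructor
  · intro h
    by_contra hc
    rw [Bool.not_eq_true] at hc
    exact false_imp hQ hc h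
  · exact true_imp hQ

end Pool.Agent.Q227.WD
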